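import Pool.Agent.Helper717.LT.Defs
import Pool.Agent.N537.RS.HSh

/-!
# Project RA (helper98): the kinetic inequality with the semiclassical constant for densities
averaged over the rotations of `a ≥ 6` of the coordinates. Exact statements of the parts.

Coordinates: `z : Fin (a + k) → ℝ`, `x = xx z` its first `a` coordinates, `y` the last `k` ones.
`QQ z = (|x|², y)`, and `s = (t, y) : Fin (k + 1) → ℝ` with `t = s 0 = log |x|`, `ee s = (exp (2t), y)`.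
-/

set_option autoImplicit false

open MeasureTheory Set Filter Topology Matrix

namespace Pool.Agent.L7h98.RA

open LTd (pd pp bco)
open Pool.Agent.R117.RL Pool.Agent.N537.RS Pool.Agent.N537.RS.HS

noncomputable section

/-- continuously differentiable with compact support -/
structure Cc1 {n : ℕ} (f : (Fin n → ℝ) → ℝ) : Prop where
  smooth : ContDiff ℝ 1 f
  supp : HasCompactSupport f

/-! ### The half space in the variables `(t, y)` -/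

/-- the kinetic energy density in the variables `(t, y)` (weight `exp (2t)` for the `y` derivatives) -/
def eW {k : ℕ} (φ : (Fin (k + 1) → ℝ) → ℝ) (s : Fin (k + 1) → ℝ) : ℝ :=
  pd 0 φ s ^ 2 + Real.exp (2 * s 0) * ∑ r : Fin k, pd r.succ φ s ^ 2

/-- RA/WT: weighted version of `LTd.T_succ` -/
def S_WT : Prop := ∀ (k : ℕ) (g A : ℝ), 3 / 2 ≤ g → 0 < A →
  ∀ (n : ℕ) (w : Fin n → (Fin (k + 1) → ℝ) → ℝ) (l : Fin n → ℝ), (∀ i, Cc1 (w i)) →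
  (∀ i j, ∫ s, w i s * w j s = if i = j then l i else 0) →
  bco (((k : ℝ) + 1) / 2) g A * ∫ s : Fin (k + 1) → ℝ,
      Real.exp (2 * s 0 * (k / (2 * g + k - 1))) * (∑ i, w i s ^ 2) ^ pp (g + ((k : ℝ) + 1) / 2) ≤
    (∫ s, ∑ i, eW (w i) s) + A * ∑ i, l i ^ pp g

/-- the semiclassical constant for the exponent `(a - 1) / 2` in dimension `k + 1` -/
def LW (a k : ℕ) : ℝ := Real.Gamma (((a : ℝ) + 1) / 2) /
  ((4 * Real.pi) ^ (((k : ℝ) + 1) / 2) * Real.Gamma (((a : ℝ) + k) / 2 + 1))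

/-- `Q` is the matrix of the form of `-∂_t² + exp (2t) (-Δ_y - U)` -/
def IsFormW {k m : ℕ} (ψ : Fin m → (Fin (k + 1) → ℝ) → ℝ) (U : (Fin (k + 1) → ℝ) → ℝ)
    (Q : Matrix (Fin m) (Fin m) ℝ) : Prop :=
  ∀ i j, Q i j = ∫ s : Fin (k + 1) → ℝ, (pd 0 (ψ i) s * pd 0 (ψ j) s +
    Real.exp (2 * s 0) * (∑ r : Fin k, pd r.succ (ψ i) s * pd r.succ (ψ j) s) -
    Real.exp (2 * s 0) * U s * (ψ i s * ψ j s))

/-- a real matrix as a complex matrix -/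
def mc {m : ℕ} (Q : Matrix (Fin m) (Fin m) ℝ) : Matrix (Fin m) (Fin m) ℂ := Q.map Complex.ofReal

/-- RA/LTW: the sharp Lieb-Thirring inequality for `-∂_t² + exp (2t) (-Δ_y - U)`, exponent
`(a - 1) / 2`, for the compression to a finite dimensional space (`hQ` is for the complexified
matrix because the later steps use complex matrices) -/
def S_LTW : Prop := ∀ (a k m : ℕ), 6 ≤ a → ∀ ψ : Fin m → (Fin (k + 1) → ℝ) → ℝ,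
  (∀ i, Cc1 (ψ i)) → (∀ i j, ∫ s, ψ i s * ψ j s = if i = j then (1 : ℝ) else 0) →
  ∀ U : (Fin (k + 1) → ℝ) → ℝ, Measurable U → (∃ C : ℝ, ∀ s, |U s| ≤ C) →
  ∀ Q : Matrix (Fin m) (Fin m) ℝ, IsFormW ψ U Q → ∀ hQ : (mc Q).IsHermitian,
  ∑ i, ENNReal.ofReal ((max (-hQ.eigenvalues i) 0) ^ (((a : ℝ) - 1) / 2)) ≤
    ENNReal.ofReal (LW a k) * ∫⁻ s : Fin (k + 1) → ℝ,
      ENNReal.ofReal (Real.exp (a * s 0) * (max (U s) 0) ^ (((a : ℝ) + k) / 2))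

/-- RA/SUB: `S_INT` for families with Gram matrix at most one -/
def S_SUB : Prop := ∀ (m : ℕ) (A M : Matrix (Fin m) (Fin m) ℝ), A.IsSymm → M.IsSymm →
  (∀ v : Fin m → ℝ, v ≠ 0 → 0 < v ⬝ᵥ (M *ᵥ v)) → ∀ (N : ℕ) (v : Fin N → Fin m → ℝ),
  (∀ c : Fin N → ℝ, (∑ n, c n • v n) ⬝ᵥ (M *ᵥ (∑ n, c n • v n)) ≤ ∑ n, c n ^ 2) → ∀ lam : ℝ,
  ENNReal.ofReal (-(∑ n, v n ⬝ᵥ (A *ᵥ v n)) - lam * ∑ n, v n ⬝ᵥ v n) ≤
    ∫⁻ τ in Ioi (0 : ℝ), (cnt (mc A) (mc M) lam τ : ENNReal)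

/-- RA/GSW: Gram-Schmidt orthogonalisation -/
def S_GSW : Prop := ∀ (n : ℕ) (ι : Type) [Fintype ι] (φ : ι → (Fin n → ℝ) → ℝ),
  (∀ i, Cc1 (φ i)) → ∃ (m : ℕ) (ψ : Fin m → (Fin n → ℝ) → ℝ) (c : ι → Fin m → ℝ),
    (∀ j, Cc1 (ψ j)) ∧ (∀ i j, ∫ s, ψ i s * ψ j s = if i = j then (1 : ℝ) else 0) ∧
    ∀ i s, φ i s = ∑ j, c i j * ψ j s

/-- RA/TAUW: an integral -/
def S_TAUW : Prop := ∀ (a k : ℕ), 6 ≤ a → ∀ V : (Fin (k + 1) → ℝ) → ℝ, Measurable V →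
  (∀ s, 0 ≤ V s) →
  ∫⁻ τ in Ioi (0 : ℝ), ∫⁻ s : Fin (k + 1) → ℝ, ENNReal.ofReal
      (Real.exp (a * s 0) * (max (V s - τ) 0) ^ (((a : ℝ) + k) / 2)) =
    ENNReal.ofReal (2 / ((a : ℝ) + k + 2)) * ∫⁻ s : Fin (k + 1) → ℝ,
      ENNReal.ofReal (Real.exp (a * s 0) * V s ^ (1 + ((a : ℝ) + k) / 2))

/-- RA/CORE: the dual inequality in the variables `(t, y)`; `α : Fin B` runs over spherical
harmonics, `l α` is the degree -/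
def S_CORE : Prop := ∀ (a k : ℕ), 6 ≤ a → ∀ (B N : ℕ) (l : Fin B → ℕ),
  (∀ q, (Finset.univ.filter fun α => l α = q).card ≤ hdim a q) →
  ∀ φ : Fin N → Fin B → (Fin (k + 1) → ℝ) → ℝ, (∀ n α, Cc1 (φ n α)) →
  (∀ (v : Fin N → ℝ) (α : Fin B), ∫ s : Fin (k + 1) → ℝ,
    Real.exp (2 * s 0) * (∑ n, v n * φ n α s) ^ 2 ≤ ∑ n, v n ^ 2) →
  ∀ V : (Fin (k + 1) → ℝ) → ℝ, Measurable V → (∀ s, 0 ≤ V s) → (∃ C : ℝ, ∀ s, V s ≤ C) →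
  ENNReal.ofReal (∑ n, ∑ α, ((∫ s : Fin (k + 1) → ℝ, Real.exp (2 * s 0) * V s * φ n α s ^ 2) -
      (∫ s, eW (φ n α) s) - ((l α : ℝ) + ((a : ℝ) - 2) / 2) ^ 2 * ∫ s, φ n α s ^ 2)) ≤
    ENNReal.ofReal (2 / ((a - 1).factorial : ℝ) * LW a k * (2 / ((a : ℝ) + k + 2))) *
      ∫⁻ s : Fin (k + 1) → ℝ, ENNReal.ofReal (Real.exp (a * s 0) * V s ^ (1 + ((a : ℝ) + k) / 2))

/-! ### Polar coordinates in the first `a` variables -/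

/-- the first `a` coordinates -/
def xx {a k : ℕ} (z : Fin (a + k) → ℝ) : E a := WithLp.toLp 2 fun i => z (Fin.castAdd k i)

/-- `(|x|², y)` -/
def QQ {a k : ℕ} (z : Fin (a + k) → ℝ) : Fin (k + 1) → ℝ :=
  Fin.cons (∑ i : Fin a, z (Fin.castAdd k i) ^ 2) fun j => z (Fin.natAdd a j)

/-- `(exp (2t), y)` -/
def ee {k : ℕ} (s : Fin (k + 1) → ℝ) : Fin (k + 1) → ℝ :=
  Fin.cons (Real.exp (2 * s 0)) fun j => s j.succ

/-- the integral of a polynomial over the unit sphere -/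
def cS {a : ℕ} (p : MvPolynomial (Fin a) ℝ) : ℝ :=
  ∫ ω : Metric.sphere (0 : E a) 1, evl p (ω : E a) ∂(volume : Measure (E a)).toSphere

/-- RA/POL0: polar coordinates for functions of `(|x|², y)` -/
def S_POL0 : Prop := ∀ (a k : ℕ), 1 ≤ a → ∀ F : (Fin (k + 1) → ℝ) → ENNReal, Measurable F →
  ∫⁻ z : Fin (a + k) → ℝ, F (QQ z) =
    ENNReal.ofReal (sg a) * ∫⁻ s : Fin (k + 1) → ℝ, ENNReal.ofReal (Real.exp (a * s 0)) * F (ee s)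

/-- RA/POL: the same with a homogeneous polynomial of `x` -/
def S_POL : Prop := ∀ (a k : ℕ), 1 ≤ a → ∀ (n : ℕ) (p : MvPolynomial (Fin a) ℝ),
  p.IsHomogeneous n → ∀ F : (Fin (k + 1) → ℝ) → ℝ, Measurable F →
  Integrable (fun s : Fin (k + 1) → ℝ => Real.exp ((n + a) * s 0) * F (ee s)) →
  Integrable (fun z : Fin (a + k) → ℝ => F (QQ z) * evl p (xx z)) ∧
  ∫ z : Fin (a + k) → ℝ, F (QQ z) * evl p (xx z) =
    cS p * ∫ s : Fin (k + 1) → ℝ, Real.exp ((n + a) * s 0) * F (ee s)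

/-- RA/DIV: the divergence theorem on the sphere, for polynomials -/
def S_DIV : Prop := ∀ (a : ℕ), 1 ≤ a → ∀ (n : ℕ) (p : MvPolynomial (Fin a) ℝ),
  p.IsHomogeneous n → ∀ i : Fin a,
  cS (MvPolynomial.pderiv i p) = ((n : ℝ) - 1 + a) * cS (MvPolynomial.X i * p)

/-- an orthonormal system of spherical harmonics (harmonic homogeneous polynomials) -/
structure HFam (a B : ℕ) (l : Fin B → ℕ) (Y : Fin B → MvPolynomial (Fin a) ℝ) : Prop where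
  hom : ∀ α, (Y α).IsHomogeneous (l α)
  harm : ∀ α, Lap a (Y α) = 0
  orth : ∀ α β, cS (Y α * Y β) = if α = β then 1 else 0

/-- RA/MULT: at most `hdim a q` members of degree `q` -/
def S_MULT : Prop := ∀ (a : ℕ), 3 ≤ a → ∀ (B : ℕ) (l : Fin B → ℕ)
  (Y : Fin B → MvPolynomial (Fin a) ℝ), HFam a B l Y →
  ∀ q, (Finset.univ.filter fun α => l α = q).card ≤ hdim a q

/-- RA/GRAD: the products of gradients -/
def S_GRAD : Prop := ∀ (a : ℕ), 1 ≤ a → ∀ (B : ℕ) (l : Fin B → ℕ)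
  (Y : Fin B → MvPolynomial (Fin a) ℝ), HFam a B l Y → ∀ α β,
  ∑ i, cS (MvPolynomial.pderiv i (Y α) * MvPolynomial.pderiv i (Y β)) =
    if α = β then (l α : ℝ) * (2 * l α + a - 2) else 0

/-- RA/BAS: every polynomial is a combination of `|x|^(2 i)` times spherical harmonics -/
def S_BAS : Prop := ∀ (a : ℕ), 3 ≤ a → ∀ L : ℕ, ∃ (B : ℕ) (l : Fin B → ℕ)
  (Y : Fin B → MvPolynomial (Fin a) ℝ), HFam a B l Y ∧
  ∀ p : MvPolynomial (Fin a) ℝ, p.totalDegree ≤ L → ∃ c : Fin B → ℕ → ℝ,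
    p = ∑ α, ∑ i ∈ Finset.range (L + 1), c α i • (RR a ^ i * Y α)

/-- profiles: continuously differentiable with compact support in the first coordinate `> 0` -/
structure Prf {k : ℕ} (G : (Fin (k + 1) → ℝ) → ℝ) : Prop where
  cc : Cc1 G
  pos : ∃ δ : ℝ, 0 < δ ∧ ∀ s : Fin (k + 1) → ℝ, s 0 ≤ δ → G s = 0

/-- the function with the profiles `G` -/
def ww {a k B : ℕ} (Y : Fin B → MvPolynomial (Fin a) ℝ) (G : Fin B → (Fin (k + 1) → ℝ) → ℝ)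
    (z : Fin (a + k) → ℝ) : ℝ := ∑ α, G α (QQ z) * evl (Y α) (xx z)

/-- the profile in the variables `(t, y)` -/
def ph (a : ℕ) {k : ℕ} (l : ℕ) (G : (Fin (k + 1) → ℝ) → ℝ) (s : Fin (k + 1) → ℝ) : ℝ :=
  Real.exp (((l : ℝ) + ((a : ℝ) - 2) / 2) * s 0) * G (ee s)

/-- RA/ENER: regularity, products and energy -/
def S_ENER : Prop := ∀ (a k : ℕ), 3 ≤ a → ∀ (B : ℕ) (l : Fin B → ℕ)
  (Y : Fin B → MvPolynomial (Fin a) ℝ), HFam a B l Y →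
  ∀ G : Fin B → (Fin (k + 1) → ℝ) → ℝ, (∀ α, Prf (G α)) →
  Cc1 (ww Y G) ∧ (∀ α, Cc1 (ph a (l α) (G α))) ∧
  (∀ V : (Fin (k + 1) → ℝ) → ℝ, Measurable V → (∃ C : ℝ, ∀ s, |V s| ≤ C) →
    ∫ z, V (QQ z) * ww Y G z ^ 2 =
      ∑ α, ∫ s : Fin (k + 1) → ℝ, Real.exp (2 * s 0) * V (ee s) * ph a (l α) (G α) s ^ 2) ∧
  ∫ z, ∑ j, pd j (ww Y G) z ^ 2 =
    ∑ α, ((∫ s, eW (ph a (l α) (G α)) s) +
      ((l α : ℝ) + ((a : ℝ) - 2) / 2) ^ 2 * ∫ s, ph a (l α) (G α) s ^ 2)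

/-! ### Density -/

/-- RA/CUT: cutting off a neighbourhood of `x = 0` -/
def S_CUT : Prop := ∀ (a k N : ℕ), 3 ≤ a → ∀ w : Fin N → (Fin (a + k) → ℝ) → ℝ,
  (∀ n, Cc1 (w n)) → ∀ ε : ℝ, 0 < ε → ∃ w' : Fin N → (Fin (a + k) → ℝ) → ℝ,
    (∀ n, Cc1 (w' n)) ∧ (∃ δ : ℝ, 0 < δ ∧ ∀ n z, (QQ z : Fin (k + 1) → ℝ) 0 ≤ δ → w' n z = 0) ∧
    ∀ n, ∫ z, (w' n z - w n z) ^ 2 ≤ ε ∧ ∫ z, ∑ j, (pd j (w' n) z - pd j (w n) z) ^ 2 ≤ ε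

/-- RA/WEI: approximation by polynomials, with the first derivatives -/
def S_WEI : Prop := ∀ (d : ℕ) (w : (Fin d → ℝ) → ℝ), Cc1 w → ∀ R ε : ℝ, 0 < ε →
  ∃ P : MvPolynomial (Fin d) ℝ, ∀ z : Fin d → ℝ, (∀ j, |z j| ≤ R) →
    |MvPolynomial.eval z P - w z| ≤ ε ∧
    ∀ j, |MvPolynomial.eval z (MvPolynomial.pderiv j P) - pd j w z| ≤ ε

/-- RA/DENS: density of the functions `ww Y G` -/
def S_DENS : Prop := ∀ (a k N : ℕ), 3 ≤ a → ∀ w : Fin N → (Fin (a + k) → ℝ) → ℝ,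
  (∀ n, Cc1 (w n)) → ∀ ε : ℝ, 0 < ε → ∃ (B : ℕ) (l : Fin B → ℕ)
  (Y : Fin B → MvPolynomial (Fin a) ℝ) (G : Fin N → Fin B → (Fin (k + 1) → ℝ) → ℝ),
    HFam a B l Y ∧ (∀ n α, Prf (G n α)) ∧
    ∀ n, ∫ z, (ww Y (G n) z - w n z) ^ 2 ≤ ε ∧
      ∫ z, ∑ j, (pd j (ww Y (G n)) z - pd j (w n) z) ^ 2 ≤ ε

/-! ### The dual and the kinetic inequality in the variables `z` -/

/-- the constant of the dual inequality -/
def CD (a k : ℕ) : ℝ :=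
  2 / ((a - 1).factorial : ℝ) * LW a k * (2 / ((a : ℝ) + k + 2)) / sg a

/-- RA/DUALA: the dual inequality for the functions `ww Y G` -/
def S_DUALA : Prop := ∀ (a k : ℕ), 6 ≤ a → ∀ (B : ℕ) (l : Fin B → ℕ)
  (Y : Fin B → MvPolynomial (Fin a) ℝ), HFam a B l Y → ∀ (N : ℕ)
  (G : Fin N → Fin B → (Fin (k + 1) → ℝ) → ℝ), (∀ n α, Prf (G n α)) →
  (∀ v : Fin N → ℝ, ∫ z, (∑ n, v n * ww Y (G n) z) ^ 2 ≤ ∑ n, v n ^ 2) →
  ∀ V : (Fin (k + 1) → ℝ) → ℝ, Measurable V → (∀ s, 0 ≤ V s) → (∃ C : ℝ, ∀ s, V s ≤ C) →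
  ENNReal.ofReal ((∑ n, ∫ z, V (QQ z) * ww Y (G n) z ^ 2) -
      ∑ n, ∫ z, ∑ j, pd j (ww Y (G n)) z ^ 2) ≤
    ENNReal.ofReal (CD a k) * ∫⁻ z : Fin (a + k) → ℝ,
      ENNReal.ofReal (V (QQ z) ^ (1 + ((a : ℝ) + k) / 2))

/-- RA/DUALC: the dual inequality for continuously differentiable functions with compact support -/
def S_DUALC : Prop := ∀ (a k : ℕ), 6 ≤ a → ∀ (N : ℕ) (w : Fin N → (Fin (a + k) → ℝ) → ℝ),
  (∀ n, Cc1 (w n)) → (∀ v : Fin N → ℝ, ∫ z, (∑ n, v n * w n z) ^ 2 ≤ ∑ n, v n ^ 2) →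
  ∀ V : (Fin (k + 1) → ℝ) → ℝ, Measurable V → (∀ s, 0 ≤ V s) → (∃ C : ℝ, ∀ s, V s ≤ C) →
  ENNReal.ofReal ((∑ n, ∫ z, V (QQ z) * w n z ^ 2) - ∑ n, ∫ z, ∑ j, pd j (w n) z ^ 2) ≤
    ENNReal.ofReal (CD a k) * ∫⁻ z : Fin (a + k) → ℝ,
      ENNReal.ofReal (V (QQ z) ^ (1 + ((a : ℝ) + k) / 2))

/-- RA/DUALH: the dual inequality for real families in `H¹` -/
def S_DUALH : Prop := ∀ (a k : ℕ), 6 ≤ a → ∀ (N : ℕ) (f : Fin N → (Fin (a + k) → ℝ) → ℝ)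
  (g : Fin N → Fin (a + k) → (Fin (a + k) → ℝ) → ℝ), (∀ n, LTd.WGrad (f n) (g n)) →
  (∀ v : Fin N → ℝ, ∫ z, (∑ n, v n * f n z) ^ 2 ≤ ∑ n, v n ^ 2) →
  ∀ V : (Fin (k + 1) → ℝ) → ℝ, Measurable V → (∀ s, 0 ≤ V s) → (∃ C : ℝ, ∀ s, V s ≤ C) →
  ∫⁻ z, ENNReal.ofReal (V (QQ z) * ∑ n, f n z ^ 2) ≤
    ENNReal.ofReal (∫ z, ∑ j, ∑ n, g n j z ^ 2) + ENNReal.ofReal (CD a k) *
      ∫⁻ z : Fin (a + k) → ℝ, ENNReal.ofReal (V (QQ z) ^ (1 + ((a : ℝ) + k) / 2))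

/-- RA/CSTW: the constant -/
def S_CSTW : Prop := ∀ (a k : ℕ), 6 ≤ a → 0 < CD a k ∧
  LTd.Kcl (a + k) = ((a : ℝ) + k) / ((a : ℝ) + k + 2) *
    (((a : ℝ) + k + 2) / 2 * CD a k) ^ (-(2 / ((a : ℝ) + k)))

end

end Pool.Agent.L7h98.RA
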