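import Pool.Agent.L7h98.RA.FIN

/-!
# Project RA: existence of the rotation average
-/

set_option autoImplicit false

open MeasureTheory Set Filter Topology Matrix

namespace Pool.Agent.L7h98.RA

theorem sigmaFinite_map_QQ (a k : ℕ) : SigmaFinite
    ((volume : Measure (Fin (a + k) → ℝ)).map (QQ : (Fin (a + k) → ℝ) → Fin (k + 1) → ℝ)) := by
  have hQ : Measurable (QQ : (Fin (a + k) → ℝ) → Fin (k + 1) → ℝ) := measurable_QQ
  refine ⟨⟨⟨fun n : ℕ => {s | ∀ i, |s i| ≤ (n : ℝ)}, fun _ => trivial, fun n => ?_, ?_⟩⟩⟩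
  · have hms : MeasurableSet {s : Fin (k + 1) → ℝ | ∀ i, |s i| ≤ (n : ℝ)} := by
      have h1 : {s : Fin (k + 1) → ℝ | ∀ i, |s i| ≤ (n : ℝ)} =
          ⋂ i, {s : Fin (k + 1) → ℝ | |s i| ≤ (n : ℝ)} := by
        ext s
        simp
      rw [h1]
      exact MeasurableSet.iInter fun i =>
        measurableSet_le ((measurable_pi_apply i).abs) measurable_const
    rw [Measure.map_apply hQ hms]
    refine lt_of_le_of_lt (measure_mono (t := Set.pi univ fun _ : Fin (a + k) =>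
      Icc (-((n : ℝ) + 1)) ((n : ℝ) + 1)) ?_) ?_
    · intro z hz i _
      have hn : (0 : ℝ) ≤ n := Nat.cast_nonneg n
      rw [mem_Icc, ← abs_le]
      have hz' : ∀ i, |(QQ z : Fin (k + 1) → ℝ) i| ≤ n := hz
      refine Fin.addCases (fun i => ?_) (fun j => ?_) i
      · have h1 := hz' 0
        have h2 : (QQ z : Fin (k + 1) → ℝ) 0 = ∑ i : Fin a, z (Fin.castAdd k i) ^ 2 := rfl
        rw [h2] at h1
        have h3 : z (Fin.castAdd k i) ^ 2 ≤ ∑ i : Fin a, z (Fin.castAdd k i) ^ 2 :=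
          Finset.single_le_sum (f := fun i : Fin a => z (Fin.castAdd k i) ^ 2)
            (fun i _ => sq_nonneg _) (Finset.mem_univ i)
        have h4 : z (Fin.castAdd k i) ^ 2 ≤ n := h3.trans ((le_abs_self _).trans h1)
        rw [← sq_abs] at h4
        nlinarith [abs_nonneg (z (Fin.castAdd k i))]
      · have h1 := hz' j.succ
        have h2 : (QQ z : Fin (k + 1) → ℝ) j.succ = z (Fin.natAdd a j) := rfl
        rw [h2] at h1
        linarith
    · exact (isCompact_univ_pi fun _ => isCompact_Icc).measure_lt_top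
  · rw [eq_univ_iff_forall]
    intro s
    rw [mem_iUnion]
    obtain ⟨n, hn⟩ := exists_nat_ge (∑ i, |s i|)
    refine ⟨n, fun i => ?_⟩
    exact (Finset.single_le_sum (f := fun i => |s i|) (fun i _ => abs_nonneg _)
      (Finset.mem_univ i)).trans hn

/-- the rotation average exists -/
theorem exists_avg {a k : ℕ} {ρ : (Fin (a + k) → ℝ) → ℝ}
    (hfin : ∫⁻ z, ENNReal.ofReal (ρ z) < ⊤) : ∃ w : (Fin (k + 1) → ℝ) → ℝ, IsRotAvg ρ w := by
  have hQ : Measurable (QQ : (Fin (a + k) → ℝ) → Fin (k + 1) → ℝ) := measurable_QQ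
  have hsf := sigmaFinite_map_QQ a k
  set ν : Measure (Fin (k + 1) → ℝ) := (volume : Measure (Fin (a + k) → ℝ)).map QQ with hν
  set μ1 : Measure (Fin (k + 1) → ℝ) :=
    (volume.withDensity fun z => ENNReal.ofReal (ρ z)).map QQ with hμ1
  have hfm : IsFiniteMeasure (volume.withDensity fun z : Fin (a + k) → ℝ =>
      ENNReal.ofReal (ρ z)) := isFiniteMeasure_withDensity hfin.ne
  have hac : μ1 ≪ ν := by
    rw [hμ1, hν]
    exact (withDensity_absolutelyContinuous _ _).map hQ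
  have h1 : ν.withDensity (μ1.rnDeriv ν) = μ1 := Measure.withDensity_rnDeriv_eq μ1 ν hac
  have hlt : ∀ᵐ s ∂ν, μ1.rnDeriv ν s < ⊤ := Measure.rnDeriv_lt_top μ1 ν
  refine ⟨fun s => (μ1.rnDeriv ν s).toReal, (Measure.measurable_rnDeriv μ1 ν).ennreal_toReal,
    fun s => ENNReal.toReal_nonneg, fun B hB => ?_⟩
  have h2 : μ1 B = ∫⁻ z in QQ ⁻¹' B, ENNReal.ofReal (ρ z) := by
    rw [hμ1, Measure.map_apply hQ hB, withDensity_apply _ (hQ hB)]
  have h3 : μ1 B = ∫⁻ s in B, μ1.rnDeriv ν s ∂ν := by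
    conv_lhs => rw [← h1]
    rw [withDensity_apply _ hB]
  have h4 : ∫⁻ s in B, μ1.rnDeriv ν s ∂ν =
      ∫⁻ s in B, ENNReal.ofReal ((μ1.rnDeriv ν s).toReal) ∂ν := by
    apply lintegral_congr_ae
    filter_upwards [ae_restrict_of_ae hlt] with s hs
    rw [ENNReal.ofReal_toReal hs.ne]
  have h5 : ∫⁻ s in B, ENNReal.ofReal ((μ1.rnDeriv ν s).toReal) ∂ν =
      ∫⁻ z in (QQ : (Fin (a + k) → ℝ) → _) ⁻¹' B,
        ENNReal.ofReal ((μ1.rnDeriv ν (QQ z)).toReal) := by
    rw [hν, setLIntegral_map hB (Measure.measurable_rnDeriv μ1 _).ennreal_toReal.ennreal_ofReal hQ]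
  rw [← h2, h3, h4, h5]

end Pool.Agent.L7h98.RA
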