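import Pool.Agent.L7h98.RA.Stm

/-!
# Project RA, leaf CSTW: the constant
-/

set_option autoImplicit false

open MeasureTheory Set Filter Topology Matrix

namespace Pool.Agent.L7h98.RA

open Pool.Agent.R117.RL

theorem om_eq {n : ℕ} (hn : 0 < n) :
    om n = √Real.pi ^ n / Real.Gamma ((n : ℝ) / 2 + 1) := by
  have : Nonempty (Fin n) := ⟨⟨0, hn⟩⟩
  unfold om
  have h1 : 0 < Real.Gamma ((n : ℝ) / 2 + 1) := Real.Gamma_pos_of_pos (by positivity)
  rw [EuclideanSpace.volume_ball, Fintype.card_fin, ENNReal.ofReal_one, one_pow, one_mul,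
    ENNReal.toReal_ofReal (by positivity)]

theorem CD_eq {a k : ℕ} (ha : 6 ≤ a) :
    ((a : ℝ) + k + 2) / 2 * CD a k = om (a + k) / (2 * Real.pi) ^ (a + k) := by
  have ha0 : 0 < a := by omega
  have ha' : (0 : ℝ) < a := by exact_mod_cast ha0
  have hk : (0 : ℝ) ≤ k := Nat.cast_nonneg k
  obtain ⟨r, hr⟩ : ∃ r : ℝ, r = √Real.pi := ⟨_, rfl⟩
  have hr0 : 0 < r := by rw [hr]; exact Real.sqrt_pos.2 Real.pi_pos
  have hpi : Real.pi = r ^ 2 := by rw [hr, Real.sq_sqrt Real.pi_pos.le]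
  have hG1 : 0 < Real.Gamma (((a : ℝ) + 1) / 2) := Real.Gamma_pos_of_pos (by positivity)
  have hG2 : 0 < Real.Gamma ((a : ℝ) / 2 + 1) := Real.Gamma_pos_of_pos (by positivity)
  have hG3 : 0 < Real.Gamma (((a : ℝ) + k) / 2 + 1) := Real.Gamma_pos_of_pos (by positivity)
  have hdup : Real.Gamma (((a : ℝ) + 1) / 2) * Real.Gamma ((a : ℝ) / 2 + 1) =
      (a.factorial : ℝ) * r / 2 ^ a := by
    have h1 := Real.Gamma_mul_Gamma_add_half (((a : ℝ) + 1) / 2)
    have h2 : ((a : ℝ) + 1) / 2 + 1 / 2 = (a : ℝ) / 2 + 1 := by ring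
    have h3 : 2 * (((a : ℝ) + 1) / 2) = (a : ℝ) + 1 := by ring
    have h4 : (1 : ℝ) - ((a : ℝ) + 1) = -(a : ℝ) := by ring
    rw [h2, h3, h4, Real.Gamma_nat_eq_factorial, Real.rpow_neg (by norm_num),
      Real.rpow_natCast, ← hr] at h1
    rw [h1]
    field_simp
  have hP : (4 * Real.pi) ^ (((k : ℝ) + 1) / 2) = (2 * r) ^ (k + 1) := by
    have h1 : 4 * Real.pi = (2 * r) ^ (2 : ℝ) := by
      rw [hpi, Real.rpow_two]
      ring
    rw [h1, ← Real.rpow_mul (by positivity)]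
    have h2 : (2 : ℝ) * (((k : ℝ) + 1) / 2) = ((k + 1 : ℕ) : ℝ) := by push_cast; ring
    rw [h2, Real.rpow_natCast]
  have hf : (a.factorial : ℝ) = a * ((a - 1).factorial : ℝ) := by
    rw [← Nat.mul_factorial_pred ha0.ne']
    push_cast
    rfl
  have hf0 : (0 : ℝ) < ((a - 1).factorial : ℝ) := by exact_mod_cast Nat.factorial_pos _
  have hG2' : Real.Gamma ((a : ℝ) / 2 + 1) =
      (a * ((a - 1).factorial : ℝ)) * r / 2 ^ a / Real.Gamma (((a : ℝ) + 1) / 2) := by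
    rw [eq_div_iff hG1.ne', ← hf, ← hdup, mul_comm]
  unfold CD LW sg
  rw [om_eq ha0, om_eq (by omega : 0 < a + k), hP, ← hr]
  have hcast : ((a + k : ℕ) : ℝ) = (a : ℝ) + k := by push_cast; rfl
  rw [hcast, hG2', hpi]
  have h5 : (0 : ℝ) < (a : ℝ) + k + 2 := by positivity
  generalize Real.Gamma (((a : ℝ) + 1) / 2) = G1 at *
  generalize Real.Gamma (((a : ℝ) + k) / 2 + 1) = G3 at *
  generalize ((a - 1).factorial : ℝ) = F at *
  rw [mul_pow, mul_pow, ← pow_mul, pow_succ, pow_succ, pow_add, pow_add]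
  field_simp
  ring

theorem t_CSTW : S_CSTW := by
  intro a k ha
  have ha0 : 0 < a := by omega
  have ha' : (0 : ℝ) < a := by exact_mod_cast ha0
  have hk : (0 : ℝ) ≤ k := Nat.cast_nonneg k
  have hd0 : (0 : ℝ) < (a : ℝ) + k := by positivity
  have hkey := CD_eq (a := a) (k := k) ha
  have hom := om_pos (a + k)
  have h2pi : (0 : ℝ) < (2 * Real.pi) ^ (a + k) := by positivity
  refine ⟨?_, ?_⟩
  · have h1 : 0 < ((a : ℝ) + k + 2) / 2 * CD a k := by
      rw [hkey]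
      positivity
    exact pos_of_mul_pos_right h1 (by positivity)
  · rw [hkey]
    unfold LTd.Kcl
    have hcast : ((a + k : ℕ) : ℝ) = (a : ℝ) + k := by push_cast; rfl
    rw [hcast]
    congr 1
    have h3 : (volume (Metric.ball (0 : EuclideanSpace ℝ (Fin (a + k))) 1)).toReal =
        om (a + k) := rfl
    rw [h3, Real.rpow_neg (by positivity), Real.div_rpow hom.le h2pi.le, inv_div]
    congr 1
    rw [← Real.rpow_natCast (2 * Real.pi) (a + k), ← Real.rpow_mul (by positivity), hcast]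
    have h4 : ((a : ℝ) + k) * (2 / ((a : ℝ) + k)) = ((2 : ℕ) : ℝ) := by
      field_simp
      norm_num
    rw [h4, Real.rpow_natCast]

end Pool.Agent.L7h98.RA
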