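import Pool.Agent.L7h98.RA.LAG
import Pool.Agent.N537.RS.Meas
import Pool.Agent.N537.RS.Cell
import Pool.Agent.Helper717.LT.P_pd_basic
import Pool.Agent.Helper717.LT.P_pd_sum

/-!
# Project RA: the dual inequality in the variables `(t, y)`
-/

set_option autoImplicit false

open MeasureTheory Set Filter Topology Matrix
open scoped ComplexOrder

namespace Pool.Agent.L7h98.RA

open LTd (pd pp bco pd_basic pd_sum)
open Pool.Agent.N537.RS

noncomputable section

variable {k m : ℕ}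

/-- the matrix of integrals -/
def GM (H : Fin m → Fin m → (Fin (k + 1) → ℝ) → ℝ) : Matrix (Fin m) (Fin m) ℝ :=
  Matrix.of fun i j => ∫ s, H i j s

theorem quad {H : Fin m → Fin m → (Fin (k + 1) → ℝ) → ℝ} (hH : ∀ i j, Integrable (H i j))
    (v w : Fin m → ℝ) :
    v ⬝ᵥ (GM H *ᵥ w) = ∫ s, ∑ i, ∑ j, v i * w j * H i j s := by
  rw [integral_finsetSum _ fun i _ => integrable_finsetSum _ fun j _ => (hH i j).const_mul _]
  unfold dotProduct mulVec dotProduct
  refine Finset.sum_congr rfl fun i _ => ?_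
  rw [integral_finsetSum _ fun j _ => (hH i j).const_mul _, Finset.mul_sum]
  refine Finset.sum_congr rfl fun j _ => ?_
  rw [integral_const_mul]
  change v i * ((∫ s, H i j s) * w j) = _
  ring

/-- the integrand of the form -/
def HF (ψ : Fin m → (Fin (k + 1) → ℝ) → ℝ) (U : (Fin (k + 1) → ℝ) → ℝ) (i j : Fin m)
    (s : Fin (k + 1) → ℝ) : ℝ :=
  pd 0 (ψ i) s * pd 0 (ψ j) s +
    Real.exp (2 * s 0) * (∑ r : Fin k, pd r.succ (ψ i) s * pd r.succ (ψ j) s) -
    Real.exp (2 * s 0) * U s * (ψ i s * ψ j s)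

theorem int_bdd {n : ℕ} {U f : (Fin n → ℝ) → ℝ} (hU : Measurable U) {C : ℝ}
    (hC : ∀ s, |U s| ≤ C) (hf : Continuous f) (hs : HasCompactSupport f) :
    Integrable fun s => U s * f s :=
  (hf.integrable_of_hasCompactSupport hs).bdd_mul hU.aestronglyMeasurable
    (Eventually.of_forall fun s => by rw [Real.norm_eq_abs]; exact hC s)

theorem int_HF {ψ : Fin m → (Fin (k + 1) → ℝ) → ℝ} (hψ : ∀ i, Cc1 (ψ i))
    {U : (Fin (k + 1) → ℝ) → ℝ} (hU : Measurable U) {C : ℝ} (hC : ∀ s, |U s| ≤ C)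
    (i j : Fin m) : Integrable (HF ψ U i j) := by
  have hp : ∀ (r : Fin (k + 1)) (i : Fin m), Continuous (pd r (ψ i)) ∧
      HasCompactSupport (pd r (ψ i)) := fun r i => pd_basic (hψ i).smooth (hψ i).supp r
  have he : Continuous fun s : Fin (k + 1) → ℝ => Real.exp (2 * s 0) := by fun_prop
  unfold HF
  refine Integrable.sub (Integrable.add ?_ ?_) ?_
  · exact ((hp 0 i).1.mul (hp 0 j).1).integrable_of_hasCompactSupport ((hp 0 i).2.mul_right)
  · have h1 : (fun s : Fin (k + 1) → ℝ => Real.exp (2 * s 0) *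
        (∑ r : Fin k, pd r.succ (ψ i) s * pd r.succ (ψ j) s)) = fun s =>
        ∑ r : Fin k, Real.exp (2 * s 0) * (pd r.succ (ψ i) s * pd r.succ (ψ j) s) := by
      funext s
      rw [Finset.mul_sum]
    rw [h1]
    refine integrable_finsetSum _ fun r _ => ?_
    exact (he.mul ((hp r.succ i).1.mul (hp r.succ j).1)).integrable_of_hasCompactSupport
      ((hp r.succ i).2.mul_right.mul_left)
  · have h1 : (fun s : Fin (k + 1) → ℝ => Real.exp (2 * s 0) * U s * (ψ i s * ψ j s)) = fun s =>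
        U s * (Real.exp (2 * s 0) * (ψ i s * ψ j s)) := by
      funext s
      ring
    rw [h1]
    exact int_bdd hU hC (he.mul ((hψ i).smooth.continuous.mul (hψ j).smooth.continuous))
      ((hψ i).supp.mul_right.mul_left)

theorem HF_sum (ψ : Fin m → (Fin (k + 1) → ℝ) → ℝ) (hψ : ∀ i, Cc1 (ψ i))
    (U : (Fin (k + 1) → ℝ) → ℝ) (v : Fin m → ℝ) (s : Fin (k + 1) → ℝ) :
    ∑ i, ∑ j, v i * v j * HF ψ U i j s =
      eW (fun s => ∑ i, v i * ψ i s) s -
        Real.exp (2 * s 0) * U s * (∑ i, v i * ψ i s) ^ 2 := by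
  unfold eW
  simp only [pd_sum ψ (fun i => (hψ i).smooth) v]
  have h1 : ∀ f : Fin m → ℝ, (∑ i, v i * f i) ^ 2 = ∑ i, ∑ j, v i * v j * (f i * f j) := by
    intro f
    rw [sq, Finset.sum_mul_sum]
    refine Finset.sum_congr rfl fun i _ => Finset.sum_congr rfl fun j _ => by ring
  simp only [h1]
  rw [Finset.sum_comm (s := (Finset.univ : Finset (Fin k))), Finset.mul_sum, Finset.mul_sum,
    ← Finset.sum_add_distrib, ← Finset.sum_sub_distrib]
  refine Finset.sum_congr rfl fun i _ => ?_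
  rw [Finset.sum_comm (s := (Finset.univ : Finset (Fin k))), Finset.mul_sum, Finset.mul_sum,
    ← Finset.sum_add_distrib, ← Finset.sum_sub_distrib]
  refine Finset.sum_congr rfl fun j _ => ?_
  unfold HF
  rw [← Finset.mul_sum]
  ring

theorem mc_add (A M : Matrix (Fin m) (Fin m) ℝ) (τ : ℝ) :
    mc (A + τ • M) = mc A + (τ : ℂ) • mc M := by
  ext i j
  simp [mc]

theorem mc_herm {A : Matrix (Fin m) (Fin m) ℝ} (hA : A.IsSymm) : (mc A).IsHermitian := by
  apply Matrix.IsHermitian.ext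
  intro i j
  simp only [mc, Matrix.map_apply]
  rw [Complex.star_def, Complex.conj_ofReal, hA.apply]

theorem t_CORE (hLTW : S_LTW) (hSUB : S_SUB) (hG : S_GSW) (hTAU : S_TAUW) (hM : S_MEAS)
    (hCE : S_CELL) : S_CORE := by
  intro a k ha B N l hcard φ hφ hgram V hV hV0 hVC
  obtain ⟨C, hC⟩ := hVC
  have hC0 : 0 ≤ C := (hV0 0).trans (hC 0)
  obtain ⟨m, ψ, c, hψ, ho, hc⟩ := hG (k + 1) (Fin N × Fin B) (fun i => φ i.1 i.2)
    (fun i => hφ i.1 i.2)
  have hφc : ∀ n α, φ n α = fun s => ∑ j, c (n, α) j * ψ j s := fun n α => funext fun s =>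
    hc (n, α) s
  have he : Continuous fun s : Fin (k + 1) → ℝ => Real.exp (2 * s 0) := by fun_prop
  have hψc : ∀ i, Continuous (ψ i) := fun i => (hψ i).smooth.continuous
  -- the matrices
  set A : Matrix (Fin m) (Fin m) ℝ := GM (HF ψ V) with hA
  set HM : Fin m → Fin m → (Fin (k + 1) → ℝ) → ℝ := fun i j s =>
    Real.exp (2 * s 0) * (ψ i s * ψ j s) with hHM
  set M : Matrix (Fin m) (Fin m) ℝ := GM HM with hMd
  have iM : ∀ i j, Integrable (HM i j) := fun i j =>
    (he.mul ((hψc i).mul (hψc j))).integrable_of_hasCompactSupport ((hψ i).supp.mul_right.mul_left)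
  have iA : ∀ i j, Integrable (HF ψ V i j) := int_HF hψ hV (C := C)
    (fun s => by rw [abs_of_nonneg (hV0 s)]; exact hC s)
  have hAs : A.IsSymm := by
    apply Matrix.IsSymm.ext
    intro i j
    show ∫ s, HF ψ V j i s = ∫ s, HF ψ V i j s
    congr 1
    funext s
    unfold HF
    have : ∑ r : Fin k, pd r.succ (ψ j) s * pd r.succ (ψ i) s =
        ∑ r : Fin k, pd r.succ (ψ i) s * pd r.succ (ψ j) s :=
      Finset.sum_congr rfl fun r _ => mul_comm _ _
    rw [this]
    ring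
  have hMs : M.IsSymm := by
    apply Matrix.IsSymm.ext
    intro i j
    show ∫ s, HM j i s = ∫ s, HM i j s
    congr 1
    funext s
    simp only [hHM]
    ring
  -- the quadratic forms
  have qM : ∀ v w : Fin m → ℝ, v ⬝ᵥ (M *ᵥ w) = ∫ s : Fin (k + 1) → ℝ, Real.exp (2 * s 0) *
      ((∑ i, v i * ψ i s) * (∑ j, w j * ψ j s)) := by
    intro v w
    rw [hMd, quad iM]
    congr 1
    funext s
    simp only [hHM]
    rw [Finset.sum_mul_sum, Finset.mul_sum]
    refine Finset.sum_congr rfl fun i _ => ?_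
    rw [Finset.mul_sum]
    refine Finset.sum_congr rfl fun j _ => by ring
  have q1 : ∀ v w : Fin m → ℝ, v ⬝ᵥ w = ∫ s, (∑ i, v i * ψ i s) * (∑ j, w j * ψ j s) := by
    intro v w
    have i1 : ∀ i j, Integrable (fun s => ψ i s * ψ j s) := fun i j =>
      ((hψc i).mul (hψc j)).integrable_of_hasCompactSupport ((hψ i).supp.mul_right)
    have h1 := quad (H := fun i j s => ψ i s * ψ j s) i1 v w
    have h2 : GM (fun i j s => ψ i s * ψ j s) = 1 := by
      ext i j
      show ∫ s, ψ i s * ψ j s = _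
      rw [ho i j, Matrix.one_apply]
    rw [h2, Matrix.one_mulVec] at h1
    rw [h1]
    congr 1
    funext s
    rw [Finset.sum_mul_sum]
    refine Finset.sum_congr rfl fun i _ => Finset.sum_congr rfl fun j _ => by ring
  have hsumc : ∀ v : Fin m → ℝ, Cc1 (fun s => ∑ i, v i * ψ i s) := fun v =>
    ⟨ContDiff.sum fun i _ => contDiff_const.mul (hψ i).smooth, by
      apply HasCompactSupport.intro (K := ⋃ i, tsupport (ψ i))
        (isCompact_iUnion fun i => (hψ i).supp)
      intro x hx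
      rw [Set.mem_iUnion, not_exists] at hx
      apply Finset.sum_eq_zero
      intro i _
      rw [image_eq_zero_of_notMem_tsupport (hx i), mul_zero]⟩
  have hMpos : ∀ v : Fin m → ℝ, v ≠ 0 → 0 < v ⬝ᵥ (M *ᵥ v) := by
    intro v hv
    rw [qM]
    have hcc := hsumc v
    have hint : Integrable (fun s : Fin (k + 1) → ℝ => Real.exp (2 * s 0) *
        ((∑ i, v i * ψ i s) * (∑ j, v j * ψ j s))) :=
      (he.mul (hcc.smooth.continuous.mul hcc.smooth.continuous)).integrable_of_hasCompactSupport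
        (hcc.supp.mul_right.mul_left)
    have hnn : ∀ s : Fin (k + 1) → ℝ, 0 ≤ Real.exp (2 * s 0) *
        ((∑ i, v i * ψ i s) * (∑ j, v j * ψ j s)) := fun s =>
      mul_nonneg (Real.exp_pos _).le (mul_self_nonneg _)
    rcases (integral_nonneg (μ := volume) (f := fun s : Fin (k + 1) → ℝ => Real.exp (2 * s 0) *
        ((∑ i, v i * ψ i s) * (∑ j, v j * ψ j s))) hnn).lt_or_eq with h | h
    · exact h
    · exfalso
      apply hv
      have h4 := (integral_eq_zero_iff_of_nonneg hnn hint).mp h.symm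
      have h5 : v ⬝ᵥ v = 0 := by
        rw [q1, ← integral_zero (Fin (k + 1) → ℝ) ℝ]
        apply integral_congr_ae
        filter_upwards [h4] with t ht
        have h6 : Real.exp (2 * t 0) * ((∑ i, v i * ψ i t) * (∑ j, v j * ψ j t)) = 0 := ht
        rcases mul_eq_zero.mp h6 with h7 | h7
        · exact absurd h7 (Real.exp_pos _).ne'
        · exact h7
      exact dotProduct_self_eq_zero.1 h5
  -- the quadratic form of A
  have hφcc : ∀ n α, Continuous (φ n α) := fun n α => (hφ n α).smooth.continuous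
  have ieW : ∀ n α, Integrable (eW (φ n α)) := by
    intro n α
    have h1 := int_HF (ψ := fun _ : Fin 1 => φ n α) (fun _ => hφ n α) (U := fun _ => (0 : ℝ))
      measurable_const (C := 0) (fun s => by simp) 0 0
    refine h1.congr (Eventually.of_forall fun s => ?_)
    simp only [HF, eW, mul_zero, zero_mul, sub_zero, sq]
  have iV : ∀ n α, Integrable (fun s : Fin (k + 1) → ℝ => Real.exp (2 * s 0) * V s *
      φ n α s ^ 2) := by
    intro n α
    have h1 := int_bdd (f := fun s => Real.exp (2 * s 0) * φ n α s ^ 2) hV (C := C)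
      (fun s => by rw [abs_of_nonneg (hV0 s)]; exact hC s) (he.mul ((hφcc n α).pow 2))
      (by
        have : HasCompactSupport (fun s => φ n α s ^ 2) :=
          (hφ n α).supp.comp_left (g := fun t : ℝ => t ^ 2) (by norm_num)
        exact this.mul_left)
    refine h1.congr (Eventually.of_forall fun s => ?_)
    simp only []
    ring
  have qA : ∀ n α, c (n, α) ⬝ᵥ (A *ᵥ c (n, α)) = (∫ s, eW (φ n α) s) -
      ∫ s : Fin (k + 1) → ℝ, Real.exp (2 * s 0) * V s * φ n α s ^ 2 := by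
    intro n α
    rw [hA, quad iA, ← integral_sub (ieW n α) (iV n α)]
    congr 1
    funext s
    rw [HF_sum ψ hψ, ← hφc]
    simp only [hc (n, α)]
  have qc : ∀ n α, c (n, α) ⬝ᵥ c (n, α) = ∫ s, φ n α s ^ 2 := by
    intro n α
    rw [q1]
    congr 1
    funext s
    rw [← hc (n, α) s, sq]
  -- the subspaces
  have hsub : ∀ α (lam : ℝ), ENNReal.ofReal (-(∑ n, c (n, α) ⬝ᵥ (A *ᵥ c (n, α))) -
      lam * ∑ n, c (n, α) ⬝ᵥ c (n, α)) ≤
      ∫⁻ τ in Ioi (0 : ℝ), (cnt (mc A) (mc M) lam τ : ENNReal) := by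
    intro α lam
    refine hSUB m A M hAs hMs hMpos N (fun n => c (n, α)) (fun v => ?_) lam
    rw [qM]
    refine le_trans (le_of_eq ?_) (hgram v α)
    congr 1
    funext s
    have h1 : ∑ i, (∑ n, v n • c (n, α)) i * ψ i s = ∑ n, v n * φ n α s := by
      simp only [Finset.sum_apply, Pi.smul_apply, smul_eq_mul, Finset.sum_mul]
      rw [Finset.sum_comm]
      refine Finset.sum_congr rfl fun n _ => ?_
      rw [hc (n, α) s, Finset.mul_sum]
      refine Finset.sum_congr rfl fun j _ => by ring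
    rw [h1, sq]
  have hH : ∀ τ : ℝ, (mc A + (τ : ℂ) • mc M).IsHermitian := by
    intro τ
    rw [← mc_add]
    exact mc_herm (hAs.add (hMs.smul τ))
  have hmain := la_fam hM hCE a ha m (mc A) (mc M) (mc_herm hAs) (mc_herm hMs) B l hcard
    (fun α => ∑ n, c (n, α) ⬝ᵥ (A *ᵥ c (n, α))) (fun α => ∑ n, c (n, α) ⬝ᵥ c (n, α))
    (fun α => Finset.sum_nonneg fun n _ => by
      rw [qc]
      exact integral_nonneg fun s => sq_nonneg _) hsub hH
  -- the left hand side
  have hLHS : (∑ n, ∑ α, ((∫ s : Fin (k + 1) → ℝ, Real.exp (2 * s 0) * V s * φ n α s ^ 2) -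
      (∫ s, eW (φ n α) s) - ((l α : ℝ) + ((a : ℝ) - 2) / 2) ^ 2 * ∫ s, φ n α s ^ 2)) =
      ∑ α, (-(∑ n, c (n, α) ⬝ᵥ (A *ᵥ c (n, α))) - ((l α : ℝ) + ((a : ℝ) - 2) / 2) ^ 2 *
        ∑ n, c (n, α) ⬝ᵥ c (n, α)) := by
    rw [Finset.sum_comm]
    refine Finset.sum_congr rfl fun α _ => ?_
    rw [← Finset.sum_neg_distrib, Finset.mul_sum, ← Finset.sum_sub_distrib]
    refine Finset.sum_congr rfl fun n _ => ?_
    rw [qA, qc]
    ring
  rw [hLHS]
  refine hmain.trans ?_
  -- the right hand side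
  have hbound : ∀ τ ∈ Ioi (0 : ℝ),
      ∑ i, ENNReal.ofReal ((max (-(hH τ).eigenvalues i) 0) ^ (((a : ℝ) - 1) / 2)) ≤
      ENNReal.ofReal (LW a k) * ∫⁻ s : Fin (k + 1) → ℝ, ENNReal.ofReal
        (Real.exp (a * s 0) * (max (V s - τ) 0) ^ (((a : ℝ) + k) / 2)) := by
    intro τ hτ
    have hτ' : 0 < τ := hτ
    have hform : IsFormW ψ (fun s => V s - τ) (A + τ • M) := by
      intro i j
      rw [Matrix.add_apply, Matrix.smul_apply, smul_eq_mul]
      show (∫ s, HF ψ V i j s) + τ * ∫ s, HM i j s = _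
      rw [← integral_const_mul, ← integral_add (iA i j) ((iM i j).const_mul _)]
      congr 1
      funext s
      simp only [HF, hHM]
      ring
    have key := hLTW a k m ha ψ hψ ho (fun s => V s - τ) (hV.sub_const τ)
      ⟨C + τ, fun s => by
        rw [abs_le]
        constructor
        · linarith [hV0 s]
        · linarith [hC s]⟩ (A + τ • M) hform
    have h1 : ∀ (X : Matrix (Fin m) (Fin m) ℂ) (hX : X.IsHermitian) (hXe : X = mc A + (τ : ℂ) • mc M),
        ∑ i, ENNReal.ofReal ((max (-hX.eigenvalues i) 0) ^ (((a : ℝ) - 1) / 2)) =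
        ∑ i, ENNReal.ofReal ((max (-(hH τ).eigenvalues i) 0) ^ (((a : ℝ) - 1) / 2)) := by
      intro X hX hXe
      subst hXe
      rfl
    have h2 : (mc (A + τ • M)).IsHermitian := mc_herm (hAs.add (hMs.smul τ))
    rw [← h1 _ h2 (mc_add A M τ)]
    exact key h2
  have hLL : 0 ≤ LW a k := by
    unfold LW
    have h1 : 0 < Real.Gamma (((a : ℝ) + 1) / 2) := Real.Gamma_pos_of_pos (by positivity)
    have h2 : 0 < Real.Gamma (((a : ℝ) + k) / 2 + 1) := Real.Gamma_pos_of_pos (by positivity)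
    positivity
  calc ENNReal.ofReal (2 / ((a - 1).factorial : ℝ)) * ∫⁻ τ in Ioi (0 : ℝ),
        ∑ i, ENNReal.ofReal ((max (-(hH τ).eigenvalues i) 0) ^ (((a : ℝ) - 1) / 2))
      ≤ ENNReal.ofReal (2 / ((a - 1).factorial : ℝ)) * ∫⁻ τ in Ioi (0 : ℝ),
        ENNReal.ofReal (LW a k) * ∫⁻ s : Fin (k + 1) → ℝ, ENNReal.ofReal
        (Real.exp (a * s 0) * (max (V s - τ) 0) ^ (((a : ℝ) + k) / 2)) := by
        exact mul_le_mul' le_rfl (setLIntegral_mono' measurableSet_Ioi hbound)
    _ = ENNReal.ofReal (2 / ((a - 1).factorial : ℝ) * LW a k * (2 / ((a : ℝ) + k + 2))) *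
      ∫⁻ s : Fin (k + 1) → ℝ, ENNReal.ofReal (Real.exp (a * s 0) * V s ^ (1 + ((a : ℝ) + k) / 2)) := by
        rw [lintegral_const_mul' _ _ ENNReal.ofReal_ne_top, hTAU a k ha V hV hV0,
          ENNReal.ofReal_mul (by positivity), ENNReal.ofReal_mul (by positivity)]
        ring

end

end Pool.Agent.L7h98.RA
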