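import Pool.Agent.L7h98.RA.GSW
import Pool.Agent.Helper717.LT.P_pd_basic
import Pool.Agent.Helper717.LT.P_pd_sum
import Pool.Agent.Helper717.LT.P_H_approx

/-!
# Project RA: the dual inequality for more and more general families
-/

set_option autoImplicit false

open MeasureTheory Set Filter Topology Matrix

namespace Pool.Agent.L7h98.RA

open LTd (pd pd_basic pd_sum)
open Pool.Agent.R117.RL Pool.Agent.N537.RS Pool.Agent.N537.RS.HS

theorem Prf_sum {k n : ℕ} {G : Fin n → (Fin (k + 1) → ℝ) → ℝ} (hG : ∀ i, Prf (G i))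
    (v : Fin n → ℝ) : Prf (fun s => ∑ i, v i * G i s) := by
  refine ⟨GSW.cc1_sum (fun i => (hG i).cc) v, ?_⟩
  choose δ hδ hδ' using fun i => (hG i).pos
  rcases Nat.eq_zero_or_pos n with h | h
  · subst h
    exact ⟨1, one_pos, fun s _ => by simp⟩
  · have hne : (Finset.univ : Finset (Fin n)).Nonempty := ⟨⟨0, h⟩, Finset.mem_univ _⟩
    refine ⟨Finset.univ.inf' hne δ, ?_, ?_⟩
    · rw [Finset.lt_inf'_iff]
      exact fun i _ => hδ i
    · intro s hs
      apply Finset.sum_eq_zero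
      intro i _
      rw [hδ' i s (hs.trans (Finset.inf'_le _ (Finset.mem_univ i))), mul_zero]

theorem ww_sum {a k B n : ℕ} (Y : Fin B → MvPolynomial (Fin a) ℝ)
    (G : Fin n → Fin B → (Fin (k + 1) → ℝ) → ℝ) (v : Fin n → ℝ) (z : Fin (a + k) → ℝ) :
    ww Y (fun α s => ∑ i, v i * G i α s) z = ∑ i, v i * ww Y (G i) z := by
  unfold ww
  simp only [Finset.sum_mul, Finset.mul_sum]
  rw [Finset.sum_comm]
  refine Finset.sum_congr rfl fun i _ => Finset.sum_congr rfl fun α _ => by ring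

theorem measurable_ee {k : ℕ} : Measurable (ee : (Fin (k + 1) → ℝ) → Fin (k + 1) → ℝ) := by
  apply Continuous.measurable
  unfold ee
  refine continuous_pi fun i => ?_
  refine Fin.cases ?_ (fun j => ?_) i
  · simp only [Fin.cons_zero]
    fun_prop
  · simp only [Fin.cons_succ]
    fun_prop

theorem measurable_QQ {a k : ℕ} : Measurable (QQ : (Fin (a + k) → ℝ) → Fin (k + 1) → ℝ) := by
  apply Continuous.measurable
  unfold QQ
  refine continuous_pi fun i => ?_
  refine Fin.cases ?_ (fun j => ?_) i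
  · simp only [Fin.cons_zero]
    fun_prop
  · simp only [Fin.cons_succ]
    fun_prop

theorem t_DUALA (hC : S_CORE) (hM : S_MULT) (hE : S_ENER) (hP : S_POL0) : S_DUALA := by
  intro a k ha B l Y hY N G hG hgram V hV hV0 hVC
  obtain ⟨C, hC'⟩ := hVC
  have ha3 : 3 ≤ a := by omega
  have hVb : ∀ s, |V s| ≤ C := fun s => by rw [abs_of_nonneg (hV0 s)]; exact hC' s
  have he : Continuous fun s : Fin (k + 1) → ℝ => Real.exp (2 * s 0) := by fun_prop
  have hen := fun n => hE a k ha3 B l Y hY (G n) (hG n)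
  have key := hC a k ha B N l (hM a ha3 B l Y hY) (fun n α => ph a (l α) (G n α))
    (fun n α => (hen n).2.1 α) (by
      intro v α
      have hGv : ∀ α, Prf (fun s => ∑ n, v n * G n α s) := fun α =>
        Prf_sum (fun n => hG n α) v
      have h1 := hE a k ha3 B l Y hY (fun α s => ∑ n, v n * G n α s) hGv
      have h2 := h1.2.2.1 (fun _ => 1) measurable_const ⟨1, fun s => by simp⟩
      simp only [one_mul, mul_one, ww_sum] at h2
      have h3 := hgram v
      rw [h2] at h3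
      have h4 : ∫ s : Fin (k + 1) → ℝ, Real.exp (2 * s 0) *
          (∑ n, v n * ph a (l α) (G n α) s) ^ 2 =
          ∫ s : Fin (k + 1) → ℝ, Real.exp (2 * s 0) *
            ph a (l α) (fun s => ∑ n, v n * G n α s) s ^ 2 := by
        congr 1
        funext s
        congr 2
        unfold ph
        rw [Finset.mul_sum]
        refine Finset.sum_congr rfl fun n _ => by ring
      rw [h4]
      refine le_trans ?_ h3
      exact Finset.single_le_sum (f := fun α => ∫ s : Fin (k + 1) → ℝ, Real.exp (2 * s 0) *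
            ph a (l α) (fun s => ∑ n, v n * G n α s) s ^ 2)
        (fun α _ => integral_nonneg fun s => by positivity) (Finset.mem_univ α))
    (fun s => V (ee s)) (hV.comp measurable_ee) (fun s => hV0 _) ⟨C, fun s => hC' _⟩
  have hL : (∑ n, ∫ z, V (QQ z) * ww Y (G n) z ^ 2) -
      ∑ n, ∫ z, ∑ j, pd j (ww Y (G n)) z ^ 2 =
      ∑ n, ∑ α, ((∫ s : Fin (k + 1) → ℝ, Real.exp (2 * s 0) * V (ee s) *
        ph a (l α) (G n α) s ^ 2) - (∫ s, eW (ph a (l α) (G n α)) s) -
        ((l α : ℝ) + ((a : ℝ) - 2) / 2) ^ 2 * ∫ s, ph a (l α) (G n α) s ^ 2) := by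
    rw [← Finset.sum_sub_distrib]
    refine Finset.sum_congr rfl fun n _ => ?_
    rw [(hen n).2.2.1 V hV ⟨C, hVb⟩, (hen n).2.2.2, ← Finset.sum_sub_distrib]
    refine Finset.sum_congr rfl fun α _ => by ring
  rw [hL]
  refine key.trans (le_of_eq ?_)
  have hsg : 0 < sg a := sg_pos (by omega)
  have h5 := hP a k (by omega) (fun s => ENNReal.ofReal (V s ^ (1 + ((a : ℝ) + k) / 2)))
    ((hV.pow_const _).ennreal_ofReal)
  rw [h5, ← mul_assoc, ← ENNReal.ofReal_mul' hsg.le]
  have h6 : CD a k * sg a = 2 / ((a - 1).factorial : ℝ) * LW a k * (2 / ((a : ℝ) + k + 2)) := by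
    unfold CD
    field_simp
  rw [h6]
  congr 1
  refine lintegral_congr fun s => ?_
  rw [ENNReal.ofReal_mul (Real.exp_pos _).le]

/-- `f² ≤ (1 + η) g² + (1 + 1/η) (f - g)²` -/
theorem sq_split {η : ℝ} (hη : 0 < η) (x y : ℝ) :
    x ^ 2 ≤ (1 + η) * y ^ 2 + (1 + 1 / η) * (x - y) ^ 2 := by
  have h1 : 0 ≤ (η * y - (x - y)) ^ 2 / η := by positivity
  have h2 : (1 + η) * y ^ 2 + (1 + 1 / η) * (x - y) ^ 2 - x ^ 2 = (η * y - (x - y)) ^ 2 / η := by
    field_simp
    ring
  linarith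

theorem cs_sum {N : ℕ} (v e : Fin N → ℝ) : (∑ n, v n * e n) ^ 2 ≤ (∑ n, v n ^ 2) * ∑ n, e n ^ 2 :=
  Finset.sum_mul_sq_le_sq_mul_sq _ _ _

theorem ww_smul {a k B : ℕ} (Y : Fin B → MvPolynomial (Fin a) ℝ)
    (G : Fin B → (Fin (k + 1) → ℝ) → ℝ) (c : ℝ) :
    (ww Y (fun α s => c * G α s) : (Fin (a + k) → ℝ) → ℝ) = fun z => c * ww Y G z := by
  funext z
  unfold ww
  rw [Finset.mul_sum]
  refine Finset.sum_congr rfl fun α _ => by ring

theorem Prf_smul {k : ℕ} {G : (Fin (k + 1) → ℝ) → ℝ} (hG : Prf G) (c : ℝ) :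
    Prf (fun s => c * G s) := by
  refine ⟨GSW.cc1_mul hG.cc c, ?_⟩
  obtain ⟨δ, hδ, hδ'⟩ := hG.pos
  exact ⟨δ, hδ, fun s hs => by rw [hδ' s hs, mul_zero]⟩

theorem pd_smul {n : ℕ} {f : (Fin n → ℝ) → ℝ} (hf : ContDiff ℝ 1 f) (c : ℝ) (j : Fin n)
    (z : Fin n → ℝ) : pd j (fun z => c * f z) z = c * pd j f z := by
  unfold pd
  have hd : DifferentiableAt ℝ f z := hf.differentiable (by norm_num) z
  rw [fderiv_const_mul hd]
  rfl

theorem int_sq {n : ℕ} {f : (Fin n → ℝ) → ℝ} (hf : Continuous f) (hs : HasCompactSupport f) :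
    Integrable (fun z => f z ^ 2) := by
  have h1 : HasCompactSupport (fun z => f z ^ 2) :=
    hs.comp_left (g := fun t : ℝ => t ^ 2) (by norm_num)
  exact (hf.pow 2).integrable_of_hasCompactSupport h1

theorem t_DUALC (hE : S_ENER) (hD : S_DENS) (hA : S_DUALA) : S_DUALC := by
  intro a k ha N w hw hgram V hV hV0 hVC
  obtain ⟨C, hC⟩ := hVC
  have hC0 : 0 ≤ C := (hV0 0).trans (hC 0)
  have ha3 : 3 ≤ a := by omega
  have hVb : ∀ s, |V s| ≤ C := fun s => by rw [abs_of_nonneg (hV0 s)]; exact hC s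
  have hVQ : Measurable fun z : Fin (a + k) → ℝ => V (QQ z) := hV.comp measurable_QQ
  set Rt : ENNReal := ENNReal.ofReal (CD a k) * ∫⁻ z : Fin (a + k) → ℝ,
      ENNReal.ofReal (V (QQ z) ^ (1 + ((a : ℝ) + k) / 2)) with hRt
  by_cases htop : Rt = ⊤
  · rw [htop]
    exact le_top
  obtain ⟨R, hR⟩ : ∃ R : ℝ, R = Rt.toReal := ⟨_, rfl⟩
  have hR0 : 0 ≤ R := by rw [hR]; exact ENNReal.toReal_nonneg
  have hRe : Rt = ENNReal.ofReal R := by rw [hR, ENNReal.ofReal_toReal htop]
  rw [hRe]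
  apply ENNReal.ofReal_le_ofReal
  -- integrability
  have iV : ∀ f g : (Fin (a + k) → ℝ) → ℝ, Cc1 f → Cc1 g →
      Integrable (fun z => V (QQ z) * (f z * g z)) := fun f g hf hg =>
    (GSW.cc1_int hf hg).bdd_mul hVQ.aestronglyMeasurable
      (Eventually.of_forall fun z => by rw [Real.norm_eq_abs]; exact hVb _)
  have iV2 : ∀ f : (Fin (a + k) → ℝ) → ℝ, Cc1 f → Integrable (fun z => V (QQ z) * f z ^ 2) := by
    intro f hf
    simp only [sq]
    exact iV f f hf hf
  have i2 : ∀ f : (Fin (a + k) → ℝ) → ℝ, Cc1 f → Integrable (fun z => f z ^ 2) := by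
    intro f hf
    simp only [sq]
    exact GSW.cc1_int hf hf
  have ip : ∀ f g : (Fin (a + k) → ℝ) → ℝ, Cc1 f → Cc1 g → ∀ j,
      Integrable (fun z => (pd j f z - pd j g z) ^ 2) := by
    intro f g hf hg j
    have h1 := pd_basic hf.smooth hf.supp j
    have h2 := pd_basic hg.smooth hg.supp j
    exact int_sq (h1.1.sub h2.1) (h1.2.sub h2.2)
  have ip1 : ∀ f : (Fin (a + k) → ℝ) → ℝ, Cc1 f → ∀ j, Integrable (fun z => pd j f z ^ 2) := by
    intro f hf j
    have h1 := pd_basic hf.smooth hf.supp j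
    exact int_sq h1.1 h1.2
  obtain ⟨E, hEd⟩ : ∃ E : ℝ, E = ∑ n, ∫ z, ∑ j, pd j (w n) z ^ 2 := ⟨_, rfl⟩
  obtain ⟨X, hXd⟩ : ∃ X : ℝ, X = ∑ n, ∫ z, V (QQ z) * w n z ^ 2 := ⟨_, rfl⟩
  have main : ∀ η : ℝ, 0 < η →
      X ≤ (1 + η) * ((1 + η) * E + η + (1 + 2 * η) * R) + η := by
    intro η hη
    have hN : (0 : ℝ) ≤ N := Nat.cast_nonneg N
    obtain ⟨ε, hε⟩ : ∃ ε : ℝ, ε = η ^ 2 / ((1 + η) * (N + 1) * (C + 1)) := ⟨_, rfl⟩
    have hε0 : 0 < ε := by rw [hε]; positivity
    have hε1 : (1 + 1 / η) * (N * ε) ≤ η := by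
      have h1 : (1 + 1 / η) * (N * ε) = η * (N / (N + 1)) * (1 / (C + 1)) := by
        rw [hε]
        field_simp
        ring
      rw [h1]
      have h2 : (N : ℝ) / (N + 1) ≤ 1 := by
        rw [div_le_one (by positivity)]
        linarith
      have h3 : 1 / (C + 1) ≤ 1 := by
        rw [div_le_one (by positivity)]
        linarith
      calc η * (N / (N + 1)) * (1 / (C + 1)) ≤ η * 1 * 1 := by gcongr
        _ = η := by ring
    have hε2 : (1 + 1 / η) * (C * (N * ε)) ≤ η := by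
      have h1 : (1 + 1 / η) * (C * (N * ε)) = η * (N / (N + 1)) * (C / (C + 1)) := by
        rw [hε]
        field_simp
        ring
      rw [h1]
      have h2 : (N : ℝ) / (N + 1) ≤ 1 := by
        rw [div_le_one (by positivity)]
        linarith
      have h3 : C / (C + 1) ≤ 1 := by
        rw [div_le_one (by positivity)]
        linarith
      calc η * (N / (N + 1)) * (C / (C + 1)) ≤ η * 1 * 1 := by gcongr
        _ = η := by ring
    obtain ⟨B, l, Y, G, hY, hG, hclose⟩ := hD a k N ha3 w hw ε hε0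
    have hen := fun n => hE a k ha3 B l Y hY (G n) (hG n)
    have hwc : ∀ n, Cc1 (ww Y (G n)) := fun n => (hen n).1
    -- the Gram matrix
    obtain ⟨κ, hκ⟩ : ∃ κ : ℝ, κ = 1 + η + (1 + 1 / η) * (N * ε) := ⟨_, rfl⟩
    have hκ0 : 0 < κ := by rw [hκ]; positivity
    have hκ1 : κ ≤ 1 + 2 * η := by rw [hκ]; linarith
    have hgr : ∀ v : Fin N → ℝ, ∫ z, (∑ n, v n * ww Y (G n) z) ^ 2 ≤ κ * ∑ n, v n ^ 2 := by
      intro v
      have hs1 : Cc1 (fun z => ∑ n, v n * ww Y (G n) z) := GSW.cc1_sum hwc v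
      have hs2 : Cc1 (fun z => ∑ n, v n * w n z) := GSW.cc1_sum hw v
      have h1 : ∫ z, (∑ n, v n * ww Y (G n) z) ^ 2 ≤ ∫ z, ((1 + η) * (∑ n, v n * w n z) ^ 2 +
          (1 + 1 / η) * ((∑ n, v n ^ 2) * ∑ n, (ww Y (G n) z - w n z) ^ 2)) := by
        refine integral_mono (i2 _ hs1) (((i2 _ hs2).const_mul _).add
          (((integrable_finsetSum _ fun n _ => i2 _ (GSW.cc1_sub (hwc n) (hw n))).const_mul
            _).const_mul _)) fun z => ?_
        have h2 := sq_split hη (∑ n, v n * ww Y (G n) z) (∑ n, v n * w n z)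
        have h3 : (∑ n, v n * ww Y (G n) z) - ∑ n, v n * w n z =
            ∑ n, v n * (ww Y (G n) z - w n z) := by
          rw [← Finset.sum_sub_distrib]
          refine Finset.sum_congr rfl fun n _ => by ring
        rw [h3] at h2
        have h4 := cs_sum v (fun n => ww Y (G n) z - w n z)
        have h5 : 0 < 1 + 1 / η := by positivity
        have h6 := mul_le_mul_of_nonneg_left h4 h5.le
        show (∑ n, v n * ww Y (G n) z) ^ 2 ≤ _
        linarith
      have h7 : ∫ z, ((1 + η) * (∑ n, v n * w n z) ^ 2 +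
          (1 + 1 / η) * ((∑ n, v n ^ 2) * ∑ n, (ww Y (G n) z - w n z) ^ 2)) =
          (1 + η) * (∫ z, (∑ n, v n * w n z) ^ 2) +
          (1 + 1 / η) * ((∑ n, v n ^ 2) * ∑ n, ∫ z, (ww Y (G n) z - w n z) ^ 2) := by
        rw [integral_add ((i2 _ hs2).const_mul _) (((integrable_finsetSum _ fun n _ =>
          i2 _ (GSW.cc1_sub (hwc n) (hw n))).const_mul _).const_mul _), integral_const_mul,
          integral_const_mul, integral_const_mul, integral_finsetSum _ fun n _ =>
          i2 _ (GSW.cc1_sub (hwc n) (hw n))]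
      have h8 : ∑ n, ∫ z, (ww Y (G n) z - w n z) ^ 2 ≤ N * ε := by
        refine (Finset.sum_le_sum fun n _ => (hclose n).1).trans (le_of_eq ?_)
        simp
      have h9 : 0 ≤ ∑ n, v n ^ 2 := Finset.sum_nonneg fun n _ => sq_nonneg _
      rw [h7] at h1
      refine h1.trans ?_
      have h10 := hgram v
      have h11 : (∑ n, v n ^ 2) * ∑ n, ∫ z, (ww Y (G n) z - w n z) ^ 2 ≤
          (∑ n, v n ^ 2) * (N * ε) := mul_le_mul_of_nonneg_left h8 h9
      have h12 : (1 + 1 / η) * ((∑ n, v n ^ 2) * ∑ n, ∫ z, (ww Y (G n) z - w n z) ^ 2) ≤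
          (1 + 1 / η) * ((∑ n, v n ^ 2) * (N * ε)) :=
        mul_le_mul_of_nonneg_left h11 (by positivity)
      have h13 : (1 + η) * (∫ z, (∑ n, v n * w n z) ^ 2) ≤ (1 + η) * ∑ n, v n ^ 2 :=
        mul_le_mul_of_nonneg_left h10 (by positivity)
      rw [hκ]
      linarith
    -- rescaling
    obtain ⟨c, hc⟩ : ∃ c : ℝ, c = (√κ)⁻¹ := ⟨_, rfl⟩
    have hcc : c ^ 2 = κ⁻¹ := by rw [hc, inv_pow, Real.sq_sqrt hκ0.le]
    have hA' := hA a k ha B l Y hY N (fun n α s => c * G n α s)
      (fun n α => Prf_smul (hG n α) c) (by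
        intro v
        simp only [ww_smul]
        have h1 : ∀ z, (∑ n, v n * (c * ww Y (G n) z)) ^ 2 =
            κ⁻¹ * (∑ n, v n * ww Y (G n) z) ^ 2 := by
          intro z
          rw [← hcc, ← mul_pow, Finset.mul_sum]
          congr 1
          refine Finset.sum_congr rfl fun n _ => by ring
        simp only [h1]
        rw [integral_const_mul, inv_mul_le_iff₀ hκ0]
        exact hgr v) V hV hV0 ⟨C, hC⟩
    rw [← hRt, hRe] at hA'
    have hA2 : (∑ n, ∫ z, V (QQ z) * ww Y (G n) z ^ 2) -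
        ∑ n, ∫ z, ∑ j, pd j (ww Y (G n)) z ^ 2 ≤ κ * R := by
      have h1 : (∑ n, ∫ z, V (QQ z) * ww Y (fun α s => c * G n α s) z ^ 2) -
          ∑ n, ∫ z, ∑ j, pd j (ww Y (fun α s => c * G n α s)) z ^ 2 =
          κ⁻¹ * ((∑ n, ∫ z, V (QQ z) * ww Y (G n) z ^ 2) -
          ∑ n, ∫ z, ∑ j, pd j (ww Y (G n)) z ^ 2) := by
        rw [mul_sub, Finset.mul_sum, Finset.mul_sum]
        congr 1
        · refine Finset.sum_congr rfl fun n _ => ?_
          rw [← integral_const_mul]
          congr 1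
          funext z
          rw [ww_smul, ← hcc]
          ring
        · refine Finset.sum_congr rfl fun n _ => ?_
          rw [← integral_const_mul]
          congr 1
          funext z
          rw [Finset.mul_sum]
          refine Finset.sum_congr rfl fun j _ => ?_
          rw [ww_smul, pd_smul (hwc n).smooth, ← hcc]
          ring
      rw [h1] at hA'
      rcases le_or_gt ((∑ n, ∫ z, V (QQ z) * ww Y (G n) z ^ 2) -
          ∑ n, ∫ z, ∑ j, pd j (ww Y (G n)) z ^ 2) 0 with h2 | h2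
      · exact h2.trans (by positivity)
      · have h3 := (ENNReal.ofReal_le_ofReal_iff hR0).1 hA'
        rw [inv_mul_le_iff₀ hκ0] at h3
        exact h3
    -- comparison
    have hX : X ≤ (1 + η) * (∑ n, ∫ z, V (QQ z) * ww Y (G n) z ^ 2) +
        (1 + 1 / η) * (C * (N * ε)) := by
      have h1 : ∀ n, ∫ z, V (QQ z) * w n z ^ 2 ≤ (1 + η) * (∫ z, V (QQ z) * ww Y (G n) z ^ 2) +
          (1 + 1 / η) * (C * ε) := by
        intro n
        have h2 : ∫ z, V (QQ z) * w n z ^ 2 ≤ ∫ z, ((1 + η) * (V (QQ z) * ww Y (G n) z ^ 2) +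
            (1 + 1 / η) * (C * (ww Y (G n) z - w n z) ^ 2)) := by
          refine integral_mono (iV2 _ (hw n)) (((iV2 _ (hwc n)).const_mul _).add
            (((i2 _ (GSW.cc1_sub (hwc n) (hw n))).const_mul _).const_mul _)) fun z => ?_
          have h3 := sq_split hη (w n z) (ww Y (G n) z)
          have h4 := mul_le_mul_of_nonneg_left h3 (hV0 (QQ z))
          have h5 : V (QQ z) * (w n z - ww Y (G n) z) ^ 2 ≤ C * (ww Y (G n) z - w n z) ^ 2 := by
            have h6 : (w n z - ww Y (G n) z) ^ 2 = (ww Y (G n) z - w n z) ^ 2 := by ring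
            rw [h6]
            exact mul_le_mul_of_nonneg_right (hC _) (sq_nonneg _)
          have h7 : 0 < 1 + 1 / η := by positivity
          have h8 := mul_le_mul_of_nonneg_left h5 h7.le
          show V (QQ z) * w n z ^ 2 ≤ (1 + η) * (V (QQ z) * ww Y (G n) z ^ 2) +
            (1 + 1 / η) * (C * (ww Y (G n) z - w n z) ^ 2)
          calc V (QQ z) * w n z ^ 2 ≤ V (QQ z) * ((1 + η) * ww Y (G n) z ^ 2 +
                (1 + 1 / η) * (w n z - ww Y (G n) z) ^ 2) := h4
            _ = (1 + η) * (V (QQ z) * ww Y (G n) z ^ 2) +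
                (1 + 1 / η) * (V (QQ z) * (w n z - ww Y (G n) z) ^ 2) := by ring
            _ ≤ _ := by linarith
        rw [integral_add ((iV2 _ (hwc n)).const_mul _)
          (((i2 _ (GSW.cc1_sub (hwc n) (hw n))).const_mul _).const_mul _), integral_const_mul,
          integral_const_mul, integral_const_mul] at h2
        refine h2.trans ?_
        have h9 : C * ∫ z, (ww Y (G n) z - w n z) ^ 2 ≤ C * ε :=
          mul_le_mul_of_nonneg_left (hclose n).1 hC0
        have h10 : 0 < 1 + 1 / η := by positivity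
        have h11 := mul_le_mul_of_nonneg_left h9 h10.le
        linarith
      rw [hXd]
      refine (Finset.sum_le_sum fun n _ => h1 n).trans (le_of_eq ?_)
      rw [Finset.sum_add_distrib, ← Finset.mul_sum, Finset.sum_const, Finset.card_univ,
        Fintype.card_fin, nsmul_eq_mul]
      ring
    have hEE : ∑ n, ∫ z, ∑ j, pd j (ww Y (G n)) z ^ 2 ≤ (1 + η) * E +
        (1 + 1 / η) * (N * ε) := by
      have h1 : ∀ n, ∫ z, ∑ j, pd j (ww Y (G n)) z ^ 2 ≤
          (1 + η) * (∫ z, ∑ j, pd j (w n) z ^ 2) + (1 + 1 / η) * ε := by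
        intro n
        have h2 : ∫ z, ∑ j, pd j (ww Y (G n)) z ^ 2 ≤
            ∫ z, ((1 + η) * (∑ j, pd j (w n) z ^ 2) +
            (1 + 1 / η) * ∑ j, (pd j (ww Y (G n)) z - pd j (w n) z) ^ 2) := by
          refine integral_mono (integrable_finsetSum _ fun j _ => ip1 _ (hwc n) j)
            (((integrable_finsetSum _ fun j _ => ip1 _ (hw n) j).const_mul _).add
            ((integrable_finsetSum _ fun j _ => ip _ _ (hwc n) (hw n) j).const_mul _))
            fun z => ?_
          show ∑ j, pd j (ww Y (G n)) z ^ 2 ≤ (1 + η) * (∑ j, pd j (w n) z ^ 2) +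
            (1 + 1 / η) * ∑ j, (pd j (ww Y (G n)) z - pd j (w n) z) ^ 2
          rw [Finset.mul_sum, Finset.mul_sum, ← Finset.sum_add_distrib]
          exact Finset.sum_le_sum fun j _ => sq_split hη _ _
        rw [integral_add ((integrable_finsetSum _ fun j _ => ip1 _ (hw n) j).const_mul _)
          ((integrable_finsetSum _ fun j _ => ip _ _ (hwc n) (hw n) j).const_mul _),
          integral_const_mul, integral_const_mul] at h2
        refine h2.trans ?_
        have h10 : 0 < 1 + 1 / η := by positivity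
        have h11 := mul_le_mul_of_nonneg_left (hclose n).2 h10.le
        linarith
      rw [hEd]
      refine (Finset.sum_le_sum fun n _ => h1 n).trans (le_of_eq ?_)
      rw [Finset.sum_add_distrib, ← Finset.mul_sum, Finset.sum_const, Finset.card_univ,
        Fintype.card_fin, nsmul_eq_mul]
      ring
    have hκR : κ * R ≤ (1 + 2 * η) * R := mul_le_mul_of_nonneg_right hκ1 hR0
    have h20 : ∑ n, ∫ z, V (QQ z) * ww Y (G n) z ^ 2 ≤
        (1 + η) * E + η + (1 + 2 * η) * R := by linarith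
    have h21 := mul_le_mul_of_nonneg_left h20 (by positivity : (0 : ℝ) ≤ 1 + η)
    linarith
  -- the limit
  have hcont : Tendsto (fun η : ℝ => (1 + η) * ((1 + η) * E + η + (1 + 2 * η) * R) + η)
      (𝓝[>] 0) (𝓝 ((1 + 0) * ((1 + 0) * E + 0 + (1 + 2 * 0) * R) + 0)) := by
    have h1 : Continuous fun η : ℝ =>
        (1 + η) * ((1 + η) * E + η + (1 + 2 * η) * R) + η := by fun_prop
    exact (h1.tendsto 0).mono_left nhdsWithin_le_nhds
  have hfin := ge_of_tendsto hcont (eventually_nhdsWithin_of_forall fun η hη => main η hη)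
  rw [← hXd, ← hEd]
  linarith

end Pool.Agent.L7h98.RA
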