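import Pool.Agent.L7h98.RA.DUAL
import Pool.Agent.L7h98.RA.CSTW
import Pool.Agent.Helper717.LT.P_final_thm

/-!
# Project RA: the dual inequality in `H¹`, and the kinetic inequality for rotation averages
-/

set_option autoImplicit false

open MeasureTheory Set Filter Topology Matrix

namespace Pool.Agent.L7h98.RA

open LTd (pd pd_basic pd_sum WGrad WGradC)
open Pool.Agent.R117.RL Pool.Agent.N537.RS Pool.Agent.N537.RS.HS

theorem t_DUALH (hC : S_DUALC) : S_DUALH := by
  intro a k ha N f g hf hgram V hV hV0 hVC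
  obtain ⟨C, hC'⟩ := hVC
  have hVb : ∀ s, |V s| ≤ C := fun s => by rw [abs_of_nonneg (hV0 s)]; exact hC' s
  have hVQ : Measurable fun z : Fin (a + k) → ℝ => V (QQ z) := hV.comp measurable_QQ
  obtain ⟨F, hF1, hF2, hF3, hF4, hF5⟩ := LTd.H_approx f g hf
  have hFc : ∀ j n, Cc1 (F j n) := fun j n => ⟨hF1 j n, hF2 j n⟩
  set Rt : ENNReal := ENNReal.ofReal (CD a k) * ∫⁻ z : Fin (a + k) → ℝ,
      ENNReal.ofReal (V (QQ z) ^ (1 + ((a : ℝ) + k) / 2)) with hRt
  set E : ℝ := ∫ z, ∑ j, ∑ n, g n j z ^ 2 with hE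
  have i2 : ∀ j n, Integrable (fun z => F j n z ^ 2) := fun j n =>
    int_sq (hF1 j n).continuous (hF2 j n)
  have iV2 : ∀ j n, Integrable (fun z => V (QQ z) * F j n z ^ 2) := fun j n =>
    (i2 j n).bdd_mul hVQ.aestronglyMeasurable
      (Eventually.of_forall fun z => by rw [Real.norm_eq_abs]; exact hVb _)
  have hbound : ∀ j : ℕ, ∫⁻ z, ENNReal.ofReal (V (QQ z) * ∑ n, F j n z ^ 2) ≤
      ENNReal.ofReal (E + 1 / ((j : ℝ) + 1)) + Rt := by
    intro j
    have h1 := hC a k ha N (F j) (hFc j) (fun v => (hF3 j v).trans (hgram v)) V hV hV0 ⟨C, hC'⟩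
    rw [← hRt] at h1
    have h2 : ∫⁻ z, ENNReal.ofReal (V (QQ z) * ∑ n, F j n z ^ 2) =
        ENNReal.ofReal (∑ n, ∫ z, V (QQ z) * F j n z ^ 2) := by
      have h3 : ∀ z, V (QQ z) * ∑ n, F j n z ^ 2 = ∑ n, V (QQ z) * F j n z ^ 2 := fun z =>
        Finset.mul_sum _ _ _
      simp only [h3]
      rw [← ofReal_integral_eq_lintegral_ofReal (integrable_finsetSum _ fun n _ => iV2 j n)
        (Eventually.of_forall fun z => Finset.sum_nonneg fun n _ =>
          mul_nonneg (hV0 _) (sq_nonneg _)), integral_finsetSum _ fun n _ => iV2 j n]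
    have h4 : ∑ n, ∫ z, ∑ i, pd i (F j n) z ^ 2 ≤ E + 1 / ((j : ℝ) + 1) := by
      refine le_trans (le_of_eq ?_) (hF5 j)
      have hp : ∀ n i, Integrable (fun z => pd i (F j n) z ^ 2) := fun n i => by
        have h5 := pd_basic (hF1 j n) (hF2 j n) i
        exact int_sq h5.1 h5.2
      rw [integral_finsetSum _ fun i _ => integrable_finsetSum _ fun n _ => hp n i]
      rw [Finset.sum_congr rfl fun n _ => integral_finsetSum _ fun i _ => hp n i,
        Finset.sum_comm]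
      refine Finset.sum_congr rfl fun i _ => ?_
      rw [integral_finsetSum _ fun n _ => hp n i]
    rw [h2]
    have h5 : (∑ n, ∫ z, V (QQ z) * F j n z ^ 2) ≤ (E + 1 / ((j : ℝ) + 1)) +
        ((∑ n, ∫ z, V (QQ z) * F j n z ^ 2) - ∑ n, ∫ z, ∑ i, pd i (F j n) z ^ 2) := by
      linarith
    exact (ENNReal.ofReal_le_ofReal h5).trans (ENNReal.ofReal_add_le.trans
      (add_le_add le_rfl h1))
  have hlim : ∀ᵐ z, Tendsto (fun j => ENNReal.ofReal (V (QQ z) * ∑ n, F j n z ^ 2)) atTop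
      (𝓝 (ENNReal.ofReal (V (QQ z) * ∑ n, f n z ^ 2))) := by
    filter_upwards [hF4] with z hz
    exact (ENNReal.continuous_ofReal.tendsto _).comp
      ((tendsto_finsetSum _ fun n _ => (hz n).pow 2).const_mul _)
  calc ∫⁻ z, ENNReal.ofReal (V (QQ z) * ∑ n, f n z ^ 2)
      = ∫⁻ z, liminf (fun j => ENNReal.ofReal (V (QQ z) * ∑ n, F j n z ^ 2)) atTop := by
        apply lintegral_congr_ae
        filter_upwards [hlim] with z hz
        exact hz.liminf_eq.symm
    _ ≤ liminf (fun j => ∫⁻ z, ENNReal.ofReal (V (QQ z) * ∑ n, F j n z ^ 2)) atTop := by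
        apply lintegral_liminf_le'
        intro j
        apply Measurable.aemeasurable
        apply Measurable.ennreal_ofReal
        apply hVQ.mul
        exact (continuous_finsetSum _ fun n _ => ((hF1 j n).continuous.pow 2)).measurable
    _ ≤ liminf (fun j : ℕ => ENNReal.ofReal (E + 1 / ((j : ℝ) + 1)) + Rt) atTop :=
        liminf_le_liminf (Eventually.of_forall hbound)
    _ = ENNReal.ofReal E + Rt := by
        apply Tendsto.liminf_eq
        refine Tendsto.add_const _ ?_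
        have h1 : Tendsto (fun j : ℕ => E + 1 / ((j : ℝ) + 1)) atTop (𝓝 (E + 0)) :=
          tendsto_one_div_add_atTop_nhds_zero_nat.const_add E
        rw [add_zero] at h1
        exact (ENNReal.continuous_ofReal.tendsto _).comp h1

/-- the dual inequality for complex orthonormal systems -/
theorem dual_complex (hH : S_DUALH) (a k : ℕ) (ha : 6 ≤ a) (N : ℕ)
    (u : Fin N → (Fin (a + k) → ℝ) → ℂ) (g : Fin N → Fin (a + k) → (Fin (a + k) → ℝ) → ℂ)
    (hu : ∀ i, WGradC (u i) (g i))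
    (ho : ∀ i j, ∫ x, (starRingEnd ℂ) (u i x) * u j x = if i = j then 1 else 0)
    (V : (Fin (k + 1) → ℝ) → ℝ) (hV : Measurable V) (hV0 : ∀ s, 0 ≤ V s)
    (hVC : ∃ C : ℝ, ∀ s, V s ≤ C) :
    ∫⁻ z, ENNReal.ofReal (V (QQ z) * ∑ n, ‖u n z‖ ^ 2) ≤
      ENNReal.ofReal (∑ n, ∑ j, ∫ z, ‖g n j z‖ ^ 2) + ENNReal.ofReal (CD a k) *
        ∫⁻ z : Fin (a + k) → ℝ, ENNReal.ofReal (V (QQ z) ^ (1 + ((a : ℝ) + k) / 2)) := by
  have hsq : ∀ z : ℂ, ‖z‖ ^ 2 = z.re ^ 2 + z.im ^ 2 := by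
    intro z
    rw [Complex.sq_norm, Complex.normSq_apply]; ring
  let F : Fin (N + N) → (Fin (a + k) → ℝ) → ℝ :=
    Fin.append (fun i x => (u i x).re) (fun i x => (u i x).im)
  let G : Fin (N + N) → Fin (a + k) → (Fin (a + k) → ℝ) → ℝ :=
    Fin.append (fun i k x => (g i k x).re) (fun i k x => (g i k x).im)
  have hFl : ∀ i, F (Fin.castAdd N i) = fun x => (u i x).re := fun i => Fin.append_left _ _ i
  have hFr : ∀ i, F (Fin.natAdd N i) = fun x => (u i x).im := fun i => Fin.append_right _ _ i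
  have hGl : ∀ i, G (Fin.castAdd N i) = fun k x => (g i k x).re := fun i => Fin.append_left _ _ i
  have hGr : ∀ i, G (Fin.natAdd N i) = fun k x => (g i k x).im := fun i => Fin.append_right _ _ i
  have hW : ∀ i, WGrad (F i) (G i) := by
    intro i
    refine Fin.addCases (fun i => ?_) (fun i => ?_) i
    · rw [hFl, hGl]
      exact (LTd.split_complex (hu i)).1
    · rw [hFr, hGr]
      exact (LTd.split_complex (hu i)).2
  have hG : ∀ v : Fin (N + N) → ℝ, ∫ x, (∑ i, v i * F i x) ^ 2 ≤ ∑ i, v i ^ 2 := by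
    intro v
    have h1 := LTd.gram_complex u (fun i => (hu i).f2) ho (fun i => v (Fin.castAdd N i))
      (fun i => v (Fin.natAdd N i))
    have h2 : ∀ x, ∑ i, v i * F i x = ∑ i : Fin N, (v (Fin.castAdd N i) * (u i x).re +
        v (Fin.natAdd N i) * (u i x).im) := by
      intro x
      rw [Fin.sum_univ_add, Finset.sum_add_distrib]
      simp only [hFl, hFr]
    have h3 : ∑ i, v i ^ 2 = ∑ i : Fin N, (v (Fin.castAdd N i) ^ 2 + v (Fin.natAdd N i) ^ 2) := by
      rw [Fin.sum_univ_add, Finset.sum_add_distrib]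
    simp only [h2]
    rw [h3]
    exact h1
  have key := hH a k ha (N + N) F G hW hG V hV hV0 hVC
  have hFs : ∀ x, ∑ i, F i x ^ 2 = ∑ i, ‖u i x‖ ^ 2 := by
    intro x
    rw [Fin.sum_univ_add, ← Finset.sum_add_distrib]
    simp only [hFl, hFr, hsq]
  have hGs : ∀ x, ∑ j, ∑ i, G i j x ^ 2 = ∑ i, ∑ j, ‖g i j x‖ ^ 2 := by
    intro x
    rw [Finset.sum_comm, Fin.sum_univ_add, ← Finset.sum_add_distrib]
    refine Finset.sum_congr rfl fun i _ => ?_
    rw [← Finset.sum_add_distrib]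
    simp only [hGl, hGr, hsq]
  simp only [hFs, hGs] at key
  have hI : ∀ i k, Integrable (fun x => ‖g i k x‖ ^ 2) := by
    intro i k
    have := (hu i).g2 k
    exact this.integrable_norm_pow two_ne_zero
  have hint : ∫ x, ∑ i, ∑ j, ‖g i j x‖ ^ 2 = ∑ i, ∑ k, ∫ x, ‖g i k x‖ ^ 2 := by
    rw [integral_finsetSum _ (fun i _ => integrable_finsetSum _ (fun k _ => hI i k))]
    refine Finset.sum_congr rfl fun i _ => ?_
    rw [integral_finsetSum _ (fun k _ => hI i k)]
  rw [hint] at key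
  exact key

/-- `w(|x|², y)` is the average of `ρ` over the rotations of the first `a` coordinates: both have
the same integral over every set which is invariant under these rotations -/
def IsRotAvg {a k : ℕ} (ρ : (Fin (a + k) → ℝ) → ℝ) (w : (Fin (k + 1) → ℝ) → ℝ) : Prop :=
  Measurable w ∧ (∀ s, 0 ≤ w s) ∧ ∀ B : Set (Fin (k + 1) → ℝ), MeasurableSet B →
    ∫⁻ z in QQ ⁻¹' B, ENNReal.ofReal (ρ z) = ∫⁻ z in (QQ : (Fin (a + k) → ℝ) → _) ⁻¹' B,
      ENNReal.ofReal (w (QQ z))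

theorem avg_lint {a k : ℕ} {ρ : (Fin (a + k) → ℝ) → ℝ} {w : (Fin (k + 1) → ℝ) → ℝ}
    (hρ : AEMeasurable ρ) (h : IsRotAvg ρ w) (V : (Fin (k + 1) → ℝ) → ENNReal)
    (hV : Measurable V) :
    ∫⁻ z, V (QQ z) * ENNReal.ofReal (ρ z) = ∫⁻ z : Fin (a + k) → ℝ, V (QQ z) *
      ENNReal.ofReal (w (QQ z)) := by
  obtain ⟨hw, hw0, hB⟩ := h
  have hQ : Measurable (QQ : (Fin (a + k) → ℝ) → Fin (k + 1) → ℝ) := measurable_QQ
  set μ1 : Measure (Fin (k + 1) → ℝ) :=
    (volume.withDensity fun z => ENNReal.ofReal (ρ z)).map QQ with hμ1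
  set μ2 : Measure (Fin (k + 1) → ℝ) :=
    ((volume : Measure (Fin (a + k) → ℝ)).withDensity fun z =>
      ENNReal.ofReal (w (QQ z))).map QQ with hμ2
  have hμ : μ1 = μ2 := by
    ext B hBm
    rw [hμ1, hμ2, Measure.map_apply hQ hBm, Measure.map_apply hQ hBm,
      withDensity_apply _ (hQ hBm), withDensity_apply _ (hQ hBm)]
    exact hB B hBm
  have h1 : ∫⁻ s, V s ∂μ1 = ∫⁻ z, V (QQ z) * ENNReal.ofReal (ρ z) := by
    rw [hμ1, lintegral_map hV hQ, lintegral_withDensity_eq_lintegral_mul₀ hρ.ennreal_ofReal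
      (g := fun z => V (QQ z)) (hV.comp hQ).aemeasurable]
    refine lintegral_congr fun z => ?_
    rw [Pi.mul_apply, mul_comm]
  have h2 : ∫⁻ s, V s ∂μ2 = ∫⁻ z : Fin (a + k) → ℝ, V (QQ z) * ENNReal.ofReal (w (QQ z)) := by
    rw [hμ2, lintegral_map hV hQ, lintegral_withDensity_eq_lintegral_mul₀
      (f := fun z : Fin (a + k) → ℝ => ENNReal.ofReal (w (QQ z)))
      (hw.comp hQ).ennreal_ofReal.aemeasurable (g := fun z => V (QQ z)) (hV.comp hQ).aemeasurable]
    refine lintegral_congr fun z => ?_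
    rw [Pi.mul_apply, mul_comm]
  rw [← h1, ← h2, hμ]

theorem kinetic (hH : S_DUALH) (hcst : S_CSTW) (a k : ℕ) (ha : 6 ≤ a) (N : ℕ)
    (u : Fin N → (Fin (a + k) → ℝ) → ℂ) (g : Fin N → Fin (a + k) → (Fin (a + k) → ℝ) → ℂ)
    (hu : ∀ i, WGradC (u i) (g i))
    (ho : ∀ i j, ∫ x, (starRingEnd ℂ) (u i x) * u j x = if i = j then 1 else 0)
    (w : (Fin (k + 1) → ℝ) → ℝ) (hw : IsRotAvg (fun z => ∑ n, ‖u n z‖ ^ 2) w) :
    Integrable (fun z : Fin (a + k) → ℝ => w (QQ z) ^ (1 + 2 / ((a + k : ℕ) : ℝ))) ∧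
    LTd.Kcl (a + k) * ∫ z : Fin (a + k) → ℝ, w (QQ z) ^ (1 + 2 / ((a + k : ℕ) : ℝ)) ≤
      ∑ n, ∑ j, ∫ z, ‖g n j z‖ ^ 2 := by
  have ha' : (6 : ℝ) ≤ a := by exact_mod_cast ha
  have hk : (0 : ℝ) ≤ k := Nat.cast_nonneg k
  obtain ⟨D, hD⟩ : ∃ D : ℝ, D = (a : ℝ) + k := ⟨_, rfl⟩
  have hcast : ((a + k : ℕ) : ℝ) = D := by rw [hD]; push_cast; rfl
  have hD6 : 6 ≤ D := by rw [hD]; linarith
  have hD0 : 0 < D := by linarith
  obtain ⟨hCD, hK⟩ := hcst a k ha
  rw [← hD] at hK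
  obtain ⟨B, hB⟩ : ∃ B : ℝ, B = (D + 2) / 2 * CD a k := ⟨_, rfl⟩
  have hB0 : 0 < B := by rw [hB]; positivity
  rw [← hB] at hK
  obtain ⟨hwm, hw0, hwB⟩ := id hw
  have hQ : Measurable (QQ : (Fin (a + k) → ℝ) → Fin (k + 1) → ℝ) := measurable_QQ
  set T : ℝ := ∑ n, ∑ j, ∫ z, ‖g n j z‖ ^ 2 with hT
  have hT0 : 0 ≤ T := Finset.sum_nonneg fun n _ => Finset.sum_nonneg fun j _ =>
    integral_nonneg fun z => by positivity
  -- the density
  have hρm : AEMeasurable (fun z => ∑ n, ‖u n z‖ ^ 2) := by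
    refine Finset.aemeasurable_fun_sum _ fun n _ => ?_
    exact ((hu n).f2.1.norm.aemeasurable).pow_const 2
  have hρfin : ∫⁻ z, ENNReal.ofReal (∑ n, ‖u n z‖ ^ 2) < ⊤ := by
    have h1 : Integrable (fun z => ∑ n, ‖u n z‖ ^ 2) :=
      integrable_finsetSum _ fun n _ => (hu n).f2.integrable_norm_pow two_ne_zero
    have h2 := h1.2
    rw [hasFiniteIntegral_iff_ofReal (Eventually.of_forall fun z =>
      Finset.sum_nonneg fun n _ => by positivity)] at h2
    exact h2
  -- the trial potentials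
  set v : (Fin (k + 1) → ℝ) → ℝ := fun s => (w s / B) ^ (2 / D) with hv
  have hvm : Measurable v := (hwm.div_const B).pow_const _
  have hv0 : ∀ s, 0 ≤ v s := fun s => Real.rpow_nonneg (div_nonneg (hw0 s) hB0.le) _
  have hvw : ∀ s, v s * w s = B ^ (-(2 / D)) * w s ^ (1 + 2 / D) := by
    intro s
    rcases (hw0 s).eq_or_lt with h0 | h0
    · rw [← h0, mul_zero, Real.zero_rpow (by positivity), mul_zero]
    · simp only [hv]
      rw [Real.div_rpow h0.le hB0.le, Real.rpow_neg hB0.le, Real.rpow_add h0, Real.rpow_one]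
      field_simp
  have hstep : ∀ R : ℕ, ∫⁻ z : Fin (a + k) → ℝ, ENNReal.ofReal (min (v (QQ z)) R * w (QQ z)) ≤
      ENNReal.ofReal ((D + 2) / D * T) := by
    intro R
    set V : (Fin (k + 1) → ℝ) → ℝ := fun s => min (v s) R with hVd
    have hVm : Measurable V := hvm.min measurable_const
    have hV0 : ∀ s, 0 ≤ V s := fun s => le_min (hv0 s) (Nat.cast_nonneg R)
    have hVR : ∀ s, V s ≤ R := fun s => min_le_right _ _
    have h1 := dual_complex hH a k ha N u g hu ho V hVm hV0 ⟨R, hVR⟩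
    have h2 : ∫⁻ z, ENNReal.ofReal (V (QQ z) * ∑ n, ‖u n z‖ ^ 2) =
        ∫⁻ z : Fin (a + k) → ℝ, ENNReal.ofReal (V (QQ z) * w (QQ z)) := by
      have h3 := avg_lint hρm hw (fun s => ENNReal.ofReal (V s)) hVm.ennreal_ofReal
      simp only [ENNReal.ofReal_mul (hV0 _)]
      exact h3
    rw [h2, ← hT] at h1
    set I : ENNReal := ∫⁻ z : Fin (a + k) → ℝ, ENNReal.ofReal (V (QQ z) * w (QQ z)) with hI
    have hIfin : I ≠ ⊤ := by
      rw [← h2]
      refine ne_of_lt (lt_of_le_of_lt (b := ENNReal.ofReal R *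
        ∫⁻ z, ENNReal.ofReal (∑ n, ‖u n z‖ ^ 2)) ?_ (ENNReal.mul_lt_top ENNReal.ofReal_lt_top
          hρfin))
      rw [← lintegral_const_mul' _ _ ENNReal.ofReal_ne_top]
      refine lintegral_mono fun z => ?_
      rw [← ENNReal.ofReal_mul (Nat.cast_nonneg R)]
      exact ENNReal.ofReal_le_ofReal (mul_le_mul_of_nonneg_right (hVR _)
        (Finset.sum_nonneg fun n _ => by positivity))
    have h4 : ENNReal.ofReal (CD a k) * ∫⁻ z : Fin (a + k) → ℝ,
        ENNReal.ofReal (V (QQ z) ^ (1 + ((a : ℝ) + k) / 2)) ≤ ENNReal.ofReal (2 / (D + 2)) * I := by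
      rw [hI, ← lintegral_const_mul' _ _ ENNReal.ofReal_ne_top,
        ← lintegral_const_mul' _ _ ENNReal.ofReal_ne_top]
      refine lintegral_mono fun z => ?_
      rw [← ENNReal.ofReal_mul hCD.le, ← ENNReal.ofReal_mul (by positivity), ← hD]
      apply ENNReal.ofReal_le_ofReal
      have h5 : V (QQ z) ^ (1 + D / 2) ≤ V (QQ z) * (w (QQ z) / B) := by
        rw [Real.rpow_add' (hV0 _) (by positivity), Real.rpow_one]
        refine mul_le_mul_of_nonneg_left ?_ (hV0 _)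
        calc V (QQ z) ^ (D / 2) ≤ v (QQ z) ^ (D / 2) :=
              Real.rpow_le_rpow (hV0 _) (min_le_left _ _) (by positivity)
          _ = w (QQ z) / B := by
              simp only [hv]
              rw [← Real.rpow_mul (div_nonneg (hw0 _) hB0.le)]
              have : 2 / D * (D / 2) = 1 := by field_simp
              rw [this, Real.rpow_one]
      have h6 := mul_le_mul_of_nonneg_left h5 hCD.le
      refine h6.trans (le_of_eq ?_)
      rw [hB]
      field_simp
    have h7 : I ≤ ENNReal.ofReal T + ENNReal.ofReal (2 / (D + 2)) * I :=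
      h1.trans (add_le_add le_rfl h4)
    have h8 : I = ENNReal.ofReal I.toReal := (ENNReal.ofReal_toReal hIfin).symm
    rw [h8, ← ENNReal.ofReal_mul (by positivity), ← ENNReal.ofReal_add hT0 (by
      have := ENNReal.toReal_nonneg (a := I)
      positivity)] at h7
    have h9 := (ENNReal.ofReal_le_ofReal_iff (by
      have := ENNReal.toReal_nonneg (a := I)
      positivity)).1 h7
    rw [h8]
    apply ENNReal.ofReal_le_ofReal
    have h10 : I.toReal * (D / (D + 2)) ≤ T := by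
      have : I.toReal * (D / (D + 2)) = I.toReal - 2 / (D + 2) * I.toReal := by
        field_simp
        ring
      rw [this]
      linarith
    rw [div_mul_eq_mul_div, le_div_iff₀ hD0]
    have h11 : I.toReal * (D / (D + 2)) * (D + 2) ≤ T * (D + 2) :=
      mul_le_mul_of_nonneg_right h10 (by positivity)
    have h12 : I.toReal * (D / (D + 2)) * (D + 2) = I.toReal * D := by field_simp
    linarith
  -- monotone convergence
  have hmono : ∫⁻ z : Fin (a + k) → ℝ, ENNReal.ofReal (v (QQ z) * w (QQ z)) ≤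
      ENNReal.ofReal ((D + 2) / D * T) := by
    have h1 : ∀ z : Fin (a + k) → ℝ, ENNReal.ofReal (v (QQ z) * w (QQ z)) =
        liminf (fun R : ℕ => ENNReal.ofReal (min (v (QQ z)) R * w (QQ z))) atTop := by
      intro z
      symm
      apply Tendsto.liminf_eq
      apply tendsto_const_nhds.congr'
      obtain ⟨R0, hR0⟩ := exists_nat_ge (v (QQ z))
      filter_upwards [eventually_ge_atTop R0] with R hR
      rw [min_eq_left (hR0.trans (by exact_mod_cast hR))]
    calc ∫⁻ z : Fin (a + k) → ℝ, ENNReal.ofReal (v (QQ z) * w (QQ z))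
        = ∫⁻ z : Fin (a + k) → ℝ, liminf (fun R : ℕ =>
            ENNReal.ofReal (min (v (QQ z)) R * w (QQ z))) atTop := lintegral_congr h1
      _ ≤ liminf (fun R : ℕ => ∫⁻ z : Fin (a + k) → ℝ,
            ENNReal.ofReal (min (v (QQ z)) R * w (QQ z))) atTop := by
          apply lintegral_liminf_le
          intro R
          exact (((hvm.comp hQ).min measurable_const).mul (hwm.comp hQ)).ennreal_ofReal
      _ ≤ liminf (fun _ : ℕ => ENNReal.ofReal ((D + 2) / D * T)) atTop :=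
          liminf_le_liminf (Eventually.of_forall hstep)
      _ = _ := liminf_const _
  have hBp : 0 < B ^ (-(2 / D)) := Real.rpow_pos_of_pos hB0 _
  have hfin : ∫⁻ z : Fin (a + k) → ℝ, ENNReal.ofReal (w (QQ z) ^ (1 + 2 / D)) ≤
      ENNReal.ofReal ((B ^ (-(2 / D)))⁻¹ * ((D + 2) / D * T)) := by
    rw [ENNReal.ofReal_mul (inv_nonneg.2 hBp.le)]
    refine le_trans (le_of_eq ?_) (mul_le_mul' le_rfl hmono)
    rw [← lintegral_const_mul' _ _ ENNReal.ofReal_ne_top]
    refine lintegral_congr fun z => ?_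
    rw [← ENNReal.ofReal_mul (inv_nonneg.2 hBp.le), hvw]
    congr 1
    field_simp
  have hmeas : Measurable (fun z : Fin (a + k) → ℝ => w (QQ z) ^ (1 + 2 / D)) :=
    (hwm.comp hQ).pow_const _
  have hnn : ∀ z : Fin (a + k) → ℝ, 0 ≤ w (QQ z) ^ (1 + 2 / D) := fun z =>
    Real.rpow_nonneg (hw0 _) _
  rw [hcast]
  have hInt : Integrable (fun z : Fin (a + k) → ℝ => w (QQ z) ^ (1 + 2 / D)) := by
    refine ⟨hmeas.aestronglyMeasurable, ?_⟩
    rw [hasFiniteIntegral_iff_ofReal (Eventually.of_forall hnn)]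
    exact lt_of_le_of_lt hfin ENNReal.ofReal_lt_top
  refine ⟨hInt, ?_⟩
  have h13 : ∫ z : Fin (a + k) → ℝ, w (QQ z) ^ (1 + 2 / D) ≤
      (B ^ (-(2 / D)))⁻¹ * ((D + 2) / D * T) := by
    rw [integral_eq_lintegral_of_nonneg_ae (Eventually.of_forall hnn) hmeas.aestronglyMeasurable]
    exact ENNReal.toReal_le_of_le_ofReal (by positivity) hfin
  rw [hK]
  have h14 := mul_le_mul_of_nonneg_left h13 (by positivity : 0 ≤ D / (D + 2) * B ^ (-(2 / D)))
  refine h14.trans (le_of_eq ?_)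
  field_simp

end Pool.Agent.L7h98.RA
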