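import Pool.Agent.L7h98.RA.Stm
import Pool.Agent.N537.RS.Tau

/-!
# Project RA, leaves GSW (Gram-Schmidt) and TAUW (an integral)
-/

set_option autoImplicit false

open MeasureTheory Set Filter Topology Matrix

namespace Pool.Agent.L7h98.RA

namespace GSW

theorem cc1_sum {n m : ℕ} {ψ : Fin m → (Fin n → ℝ) → ℝ} (hψ : ∀ i, Cc1 (ψ i)) (v : Fin m → ℝ) :
    Cc1 (fun s => ∑ i, v i * ψ i s) :=
  ⟨ContDiff.sum fun i _ => contDiff_const.mul (hψ i).smooth, by
    apply HasCompactSupport.intro (K := ⋃ i, tsupport (ψ i))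
      (isCompact_iUnion fun i => (hψ i).supp)
    intro x hx
    rw [Set.mem_iUnion, not_exists] at hx
    apply Finset.sum_eq_zero
    intro i _
    rw [image_eq_zero_of_notMem_tsupport (hx i), mul_zero]⟩

theorem cc1_sub {n : ℕ} {f g : (Fin n → ℝ) → ℝ} (hf : Cc1 f) (hg : Cc1 g) :
    Cc1 (fun s => f s - g s) :=
  ⟨hf.smooth.sub hg.smooth, hf.supp.sub hg.supp⟩

theorem cc1_mul {n : ℕ} {f : (Fin n → ℝ) → ℝ} (hf : Cc1 f) (c : ℝ) : Cc1 (fun s => c * f s) :=
  ⟨contDiff_const.mul hf.smooth, hf.supp.mul_left⟩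

theorem cc1_int {n : ℕ} {f g : (Fin n → ℝ) → ℝ} (hf : Cc1 f) (hg : Cc1 g) :
    Integrable (fun s => f s * g s) :=
  (hf.smooth.continuous.mul hg.smooth.continuous).integrable_of_hasCompactSupport hf.supp.mul_right

theorem gs {n : ℕ} {ι : Type} [DecidableEq ι] (φ : ι → (Fin n → ℝ) → ℝ) (hφ : ∀ i, Cc1 (φ i))
    (s : Finset ι) :
    ∃ (m : ℕ) (ψ : Fin m → (Fin n → ℝ) → ℝ) (c : ι → Fin m → ℝ), (∀ j, Cc1 (ψ j)) ∧
      (∀ i j, ∫ s, ψ i s * ψ j s = if i = j then (1 : ℝ) else 0) ∧
      ∀ i ∈ s, ∀ t, φ i t = ∑ j, c i j * ψ j t := by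
  induction s using Finset.induction_on with
  | empty =>
    exact ⟨0, fun j => j.elim0, fun _ j => j.elim0, fun j => j.elim0,
      fun i => i.elim0, fun i hi => absurd hi (Finset.notMem_empty i)⟩
  | insert a s ha ih =>
    obtain ⟨m, ψ, c, hψ, ho, hc⟩ := ih
    obtain ⟨c0, hc0⟩ : ∃ c0 : Fin m → ℝ, c0 = fun j => ∫ t, ψ j t * φ a t := ⟨_, rfl⟩
    obtain ⟨r, hrd⟩ : ∃ r : (Fin n → ℝ) → ℝ, r = fun t => φ a t - ∑ j, c0 j * ψ j t := ⟨_, rfl⟩
    have hr : Cc1 r := by
      rw [hrd]
      exact cc1_sub (hφ a) (cc1_sum hψ c0)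
    have hφr : ∀ t, φ a t = r t + ∑ j, c0 j * ψ j t := by
      intro t
      rw [hrd]
      ring
    have horth : ∀ j, ∫ t, ψ j t * r t = 0 := by
      intro j
      have e1 : ∀ t, ψ j t * r t = ψ j t * φ a t - ∑ k, c0 k * (ψ j t * ψ k t) := by
        intro t
        rw [hφr t, mul_add, Finset.mul_sum]
        have : ∀ k, ψ j t * (c0 k * ψ k t) = c0 k * (ψ j t * ψ k t) := by
          intro k; ring
        simp only [this]
        ring
      simp only [e1]
      rw [integral_sub (cc1_int (hψ j) (hφ a))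
        (integrable_finsetSum _ fun k _ => (cc1_int (hψ j) (hψ k)).const_mul _),
        integral_finsetSum _ fun k _ => (cc1_int (hψ j) (hψ k)).const_mul _]
      simp only [integral_const_mul, ho j, mul_ite, mul_one, mul_zero]
      rw [Finset.sum_ite_eq Finset.univ j, if_pos (Finset.mem_univ j), hc0]
      exact sub_self _
    have hM0 : 0 ≤ ∫ t, r t * r t := integral_nonneg fun t => mul_self_nonneg _
    rcases hM0.eq_or_lt with hM | hM
    · have h1 : (fun t => r t * r t) =ᵐ[volume] 0 :=
        (integral_eq_zero_iff_of_nonneg (fun t => mul_self_nonneg _) (cc1_int hr hr)).1 hM.symm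
      have h2 : r =ᵐ[volume] fun _ => 0 := by
        filter_upwards [h1] with t ht
        exact mul_self_eq_zero.1 ht
      have h3 : r = fun _ => 0 :=
        (Continuous.ae_eq_iff_eq volume hr.smooth.continuous continuous_const).1 h2
      refine ⟨m, ψ, fun i => if i = a then c0 else c i, hψ, ho, ?_⟩
      intro i hi t
      by_cases hia : i = a
      · subst hia
        simp only [if_true]
        rw [hφr t, h3, zero_add]
      · simp only [if_neg hia]
        exact hc i ((Finset.mem_insert.1 hi).resolve_left hia) t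
    · obtain ⟨M, hMd⟩ : ∃ M : ℝ, M = ∫ t, r t * r t := ⟨_, rfl⟩
      rw [← hMd] at hM
      have hsM : (√M) ≠ 0 := (Real.sqrt_pos.2 hM).ne'
      obtain ⟨v, hvd⟩ : ∃ v : (Fin n → ℝ) → ℝ, v = fun t => (√M)⁻¹ * r t := ⟨_, rfl⟩
      have hv : Cc1 v := by
        rw [hvd]
        exact cc1_mul hr _
      have hv1 : ∀ j, ∫ t, ψ j t * v t = 0 := by
        intro j
        have e1 : ∀ t, ψ j t * v t = (√M)⁻¹ * (ψ j t * r t) := by
          intro t
          rw [hvd]
          ring
        simp only [e1]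
        rw [integral_const_mul, horth j, mul_zero]
      have hv2 : ∀ j, ∫ t, v t * ψ j t = 0 := by
        intro j
        rw [← hv1 j]
        congr 1
        funext t
        ring
      have hv3 : ∫ t, v t * v t = 1 := by
        have e1 : ∀ t, v t * v t = M⁻¹ * (r t * r t) := by
          intro t
          rw [hvd]
          have : (√M)⁻¹ * (√M)⁻¹ = M⁻¹ := by rw [← mul_inv, Real.mul_self_sqrt hM.le]
          calc (√M)⁻¹ * r t * ((√M)⁻¹ * r t) = ((√M)⁻¹ * (√M)⁻¹) * (r t * r t) := by ring
            _ = _ := by rw [this]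
        simp only [e1]
        rw [integral_const_mul, ← hMd, inv_mul_cancel₀ hM.ne']
      refine ⟨m + 1, Fin.snoc (α := fun _ => (Fin n → ℝ) → ℝ) ψ v,
        fun i => if i = a then Fin.snoc (α := fun _ => ℝ) c0 (√M)
          else Fin.snoc (α := fun _ => ℝ) (c i) 0, ?_, ?_, ?_⟩
      · intro j
        refine Fin.lastCases ?_ (fun j => ?_) j
        · rw [Fin.snoc_last]; exact hv
        · rw [Fin.snoc_castSucc]; exact hψ j
      · intro i j
        refine Fin.lastCases ?_ (fun i => ?_) i
        · refine Fin.lastCases ?_ (fun j => ?_) j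
          · simp only [Fin.snoc_last, if_true]
            exact hv3
          · simp only [Fin.snoc_last, Fin.snoc_castSucc]
            rw [if_neg (Fin.castSucc_lt_last j).ne']
            exact hv2 j
        · refine Fin.lastCases ?_ (fun j => ?_) j
          · simp only [Fin.snoc_last, Fin.snoc_castSucc]
            rw [if_neg (Fin.castSucc_lt_last i).ne]
            exact hv1 i
          · simp only [Fin.snoc_castSucc, Fin.castSucc_inj]
            exact ho i j
      · intro i hi t
        by_cases hia : i = a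
        · subst hia
          simp only [if_true, Fin.sum_univ_castSucc, Fin.snoc_castSucc, Fin.snoc_last]
          have e2 : √M * v t = r t := by
            rw [hvd]
            show √M * ((√M)⁻¹ * r t) = r t
            rw [← mul_assoc, mul_inv_cancel₀ hsM, one_mul]
          rw [e2, hφr t, add_comm]
        · simp only [if_neg hia, Fin.sum_univ_castSucc, Fin.snoc_castSucc, Fin.snoc_last, zero_mul,
            add_zero]
          exact hc i ((Finset.mem_insert.1 hi).resolve_left hia) t

end GSW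

theorem t_GSW : S_GSW := by
  classical
  intro n ι _ φ hφ
  obtain ⟨m, ψ, c, h1, h2, h3⟩ := GSW.gs φ hφ Finset.univ
  exact ⟨m, ψ, c, h1, h2, fun i t => h3 i (Finset.mem_univ i) t⟩

theorem t_TAUW : S_TAUW := by
  intro a k ha V hV hV0
  have ha' : (6 : ℝ) ≤ a := by exact_mod_cast ha
  have hk : (0 : ℝ) ≤ k := Nat.cast_nonneg k
  have hm : Measurable (Function.uncurry (fun (τ : ℝ) (s : Fin (k + 1) → ℝ) => ENNReal.ofReal
      (Real.exp (a * s 0) * (max (V s - τ) 0) ^ (((a : ℝ) + k) / 2)))) := by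
    apply ENNReal.measurable_ofReal.comp
    apply Measurable.mul
    · have h1 : Continuous fun s : Fin (k + 1) → ℝ => Real.exp (a * s 0) := by fun_prop
      exact h1.measurable.comp measurable_snd
    · apply Measurable.pow_const
      apply Measurable.max _ measurable_const
      exact (hV.comp measurable_snd).sub measurable_fst
  rw [lintegral_lintegral_swap hm.aemeasurable, ← lintegral_const_mul']
  · apply lintegral_congr
    intro s
    have h1 : ∀ τ : ℝ, ENNReal.ofReal
        (Real.exp (a * s 0) * (max (V s - τ) 0) ^ (((a : ℝ) + k) / 2)) =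
        ENNReal.ofReal (Real.exp (a * s 0)) *
          ENNReal.ofReal ((max (V s - τ) 0) ^ (((a : ℝ) + k) / 2)) := by
      intro τ
      rw [ENNReal.ofReal_mul (Real.exp_pos _).le]
    simp_rw [h1]
    rw [lintegral_const_mul' _ _ ENNReal.ofReal_ne_top,
      Pool.Agent.N537.RS.TA.aux _ _ (hV0 s) (by linarith),
      ← ENNReal.ofReal_mul (Real.exp_pos _).le, ← ENNReal.ofReal_mul (by positivity)]
    congr 1
    rw [show (1 : ℝ) + ((a : ℝ) + k) / 2 = ((a : ℝ) + k) / 2 + 1 by ring]
    field_simp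
  · exact ENNReal.ofReal_ne_top

end Pool.Agent.L7h98.RA
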