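import Pool.Agent.L7h98.RA.Stm
import Pool.Agent.N537.RS.LA

/-!
# Project RA: the inequality for matrices, general form
-/

set_option autoImplicit false

open MeasureTheory Set Filter Topology Matrix
open scoped ComplexOrder

namespace Pool.Agent.L7h98.RA

open Pool.Agent.N537.RS Pool.Agent.N537.RS.LA

theorem la_gen (h2 : S_MEAS) (h3 : S_CELL) (d : ℕ) (hd : 6 ≤ d) (m : ℕ)
    (A M : Matrix (Fin m) (Fin m) ℂ) (hA : A.IsHermitian) (hM : M.IsHermitian) (Λ : Finset ℕ)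
    (g : ℕ → ℕ) (hg : ∀ l ∈ Λ, g l ≤ hdim d l) (aa bb : ℕ → ℝ) (hb : ∀ l ∈ Λ, 0 ≤ bb l)
    (hS : ∀ l ∈ Λ, ∀ lam : ℝ, ENNReal.ofReal (-aa l - lam * bb l) ≤
      ∫⁻ τ in Ioi (0 : ℝ), (cnt A M lam τ : ENNReal))
    (hH : ∀ τ : ℝ, (A + (τ : ℂ) • M).IsHermitian) :
    ENNReal.ofReal (∑ l ∈ Λ, (g l : ℝ) * (-aa l - ((l : ℝ) + ((d : ℝ) - 2) / 2) ^ 2 * bb l)) ≤
    ENNReal.ofReal (2 / ((d - 1).factorial : ℝ)) * ∫⁻ τ in Ioi (0 : ℝ),
      ∑ i, ENNReal.ofReal ((max (-(hH τ).eigenvalues i) 0) ^ (((d : ℝ) - 1) / 2)) := by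
  set e : ℝ := 2 / ((d : ℝ) - 1) with he
  set S : ℝ → ENNReal := fun lam => ∫⁻ τ in Ioi (0 : ℝ), (cnt A M lam τ : ENNReal) with hSd
  have hmono : Monotone (PP d) := monotone_nat_of_le_succ fun l => ((h3 d hd).2 l).2.1
  have h0 : PP d 0 = 0 := (h3 d hd).1
  have hstep : ∀ l ∈ Λ, ENNReal.ofReal ((g l : ℝ) * (-aa l -
      ((l : ℝ) + ((d : ℝ) - 2) / 2) ^ 2 * bb l)) ≤
      ENNReal.ofReal (2 / ((d - 1).factorial : ℝ)) *
        ∫⁻ x in Ioc (PP d l) (PP d (l + 1)), S (x ^ e) := by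
    intro l hl
    exact cell d hd h3 l (g l) (hg l hl) _ _ (hb l hl) S (hS l hl)
  have hdisj : Set.PairwiseDisjoint (↑Λ : Set ℕ) fun l => Ioc (PP d l) (PP d (l + 1)) := by
    intro l _ l' _ hne
    exact hmono.pairwise_disjoint_on_Ioc_succ hne
  have hsub : (⋃ l ∈ Λ, Ioc (PP d l) (PP d (l + 1))) ⊆ Ioi (0 : ℝ) := by
    refine iUnion₂_subset fun l _ x hx => ?_
    have : PP d 0 ≤ PP d l := hmono (Nat.zero_le l)
    rw [h0] at this
    exact lt_of_le_of_lt this hx.1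
  have hmeas : Measurable fun p : ℝ × ℝ => (cnt A M (p.1 ^ e) p.2 : ENNReal) := by
    have q1 := h2 m A M hA hM
    have q2 : Measurable fun p : ℝ × ℝ => (p.1 ^ e, p.2) :=
      (measurable_fst.pow_const e).prodMk measurable_snd
    have q3 : Measurable fun n : ℕ => (n : ENNReal) := measurable_of_countable _
    exact q3.comp (q1.comp q2)
  calc ENNReal.ofReal (∑ l ∈ Λ, (g l : ℝ) * (-aa l - ((l : ℝ) + ((d : ℝ) - 2) / 2) ^ 2 * bb l))
      ≤ ∑ l ∈ Λ, ENNReal.ofReal ((g l : ℝ) * (-aa l -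
      ((l : ℝ) + ((d : ℝ) - 2) / 2) ^ 2 * bb l)) := ofReal_sum_le _ _
    _ ≤ ∑ l ∈ Λ, ENNReal.ofReal (2 / ((d - 1).factorial : ℝ)) *
        ∫⁻ x in Ioc (PP d l) (PP d (l + 1)), S (x ^ e) := Finset.sum_le_sum hstep
    _ = ENNReal.ofReal (2 / ((d - 1).factorial : ℝ)) *
        ∫⁻ x in ⋃ l ∈ Λ, Ioc (PP d l) (PP d (l + 1)), S (x ^ e) := by
        rw [← Finset.mul_sum, lintegral_biUnion_finset hdisj fun _ _ => measurableSet_Ioc]
    _ ≤ ENNReal.ofReal (2 / ((d - 1).factorial : ℝ)) *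
        ∫⁻ x in Ioi (0 : ℝ), S (x ^ e) :=
        mul_le_mul_right (lintegral_mono_set hsub) _
    _ = ENNReal.ofReal (2 / ((d - 1).factorial : ℝ)) *
        ∫⁻ τ in Ioi (0 : ℝ), ∫⁻ x in Ioi (0 : ℝ), (cnt A M (x ^ e) τ : ENNReal) := by
        congr 1
        exact lintegral_lintegral_swap (f := fun x τ => (cnt A M (x ^ e) τ : ENNReal))
          hmeas.aemeasurable
    _ ≤ _ := mul_le_mul_right (lintegral_mono fun τ => inner d hd hH τ) _

/-- the same with `α : Fin B` of degree `l α` -/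
theorem la_fam (h2 : S_MEAS) (h3 : S_CELL) (d : ℕ) (hd : 6 ≤ d) (m : ℕ)
    (A M : Matrix (Fin m) (Fin m) ℂ) (hA : A.IsHermitian) (hM : M.IsHermitian) (B : ℕ)
    (l : Fin B → ℕ) (hcard : ∀ q, (Finset.univ.filter fun α => l α = q).card ≤ hdim d q)
    (aa bb : Fin B → ℝ) (hb : ∀ α, 0 ≤ bb α)
    (hS : ∀ α, ∀ lam : ℝ, ENNReal.ofReal (-aa α - lam * bb α) ≤
      ∫⁻ τ in Ioi (0 : ℝ), (cnt A M lam τ : ENNReal))
    (hH : ∀ τ : ℝ, (A + (τ : ℂ) • M).IsHermitian) :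
    ENNReal.ofReal (∑ α, (-aa α - ((l α : ℝ) + ((d : ℝ) - 2) / 2) ^ 2 * bb α)) ≤
    ENNReal.ofReal (2 / ((d - 1).factorial : ℝ)) * ∫⁻ τ in Ioi (0 : ℝ),
      ∑ i, ENNReal.ofReal ((max (-(hH τ).eigenvalues i) 0) ^ (((d : ℝ) - 1) / 2)) := by
  classical
  set Λ : Finset ℕ := Finset.univ.image l with hΛ
  set F : ℕ → Finset (Fin B) := fun q => Finset.univ.filter fun α => l α = q with hF
  have hFne : ∀ q ∈ Λ, 0 < (F q).card := by
    intro q hq
    obtain ⟨α, -, hα⟩ := Finset.mem_image.1 hq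
    exact Finset.card_pos.2 ⟨α, Finset.mem_filter.2 ⟨Finset.mem_univ _, hα⟩⟩
  have key := la_gen h2 h3 d hd m A M hA hM Λ (fun q => (F q).card) (fun q _ => hcard q)
    (fun q => (∑ α ∈ F q, aa α) / (F q).card) (fun q => (∑ α ∈ F q, bb α) / (F q).card)
    (fun q _ => div_nonneg (Finset.sum_nonneg fun α _ => hb α) (Nat.cast_nonneg _)) ?_ hH
  · refine le_trans (le_of_eq ?_) key
    congr 1
    have h4 : ∑ α, (-aa α - ((l α : ℝ) + ((d : ℝ) - 2) / 2) ^ 2 * bb α) =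
        ∑ q ∈ Λ, ∑ α ∈ F q, (-aa α - ((l α : ℝ) + ((d : ℝ) - 2) / 2) ^ 2 * bb α) := by
      rw [hΛ]
      exact (Finset.sum_fiberwise_of_maps_to (fun α _ => Finset.mem_image_of_mem l
        (Finset.mem_univ α)) _).symm
    rw [h4]
    refine Finset.sum_congr rfl fun q hq => ?_
    have hc : (0 : ℝ) < ((F q).card : ℝ) := by exact_mod_cast hFne q hq
    have h5 : ∑ α ∈ F q, (-aa α - ((l α : ℝ) + ((d : ℝ) - 2) / 2) ^ 2 * bb α) =
        -(∑ α ∈ F q, aa α) - ((q : ℝ) + ((d : ℝ) - 2) / 2) ^ 2 * ∑ α ∈ F q, bb α := by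
      rw [← Finset.sum_neg_distrib, Finset.mul_sum, ← Finset.sum_sub_distrib]
      refine Finset.sum_congr rfl fun α hα => ?_
      rw [(Finset.mem_filter.1 hα).2]
    rw [h5]
    field_simp
  · intro q hq lam
    have hc : (0 : ℝ) < ((F q).card : ℝ) := by exact_mod_cast hFne q hq
    by_cases htop : ∫⁻ τ in Ioi (0 : ℝ), (cnt A M lam τ : ENNReal) = ⊤
    · rw [htop]
      exact le_top
    · rw [← ENNReal.ofReal_toReal htop]
      apply ENNReal.ofReal_le_ofReal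
      have h6 : ∀ α, -aa α - lam * bb α ≤
          (∫⁻ τ in Ioi (0 : ℝ), (cnt A M lam τ : ENNReal)).toReal := by
        intro α
        have h7 := hS α lam
        rw [← ENNReal.ofReal_toReal htop] at h7
        rcases le_or_gt (-aa α - lam * bb α) 0 with h8 | h8
        · exact h8.trans ENNReal.toReal_nonneg
        · exact (ENNReal.ofReal_le_ofReal_iff ENNReal.toReal_nonneg).1 h7
      have h9 := Finset.sum_le_sum (s := F q) fun α _ => h6 α
      rw [Finset.sum_const, nsmul_eq_mul, Finset.sum_sub_distrib, Finset.sum_neg_distrib,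
        ← Finset.mul_sum] at h9
      have h10 : -((∑ α ∈ F q, aa α) / ((F q).card : ℝ)) -
          lam * ((∑ α ∈ F q, bb α) / ((F q).card : ℝ)) =
          (-(∑ α ∈ F q, aa α) - lam * ∑ α ∈ F q, bb α) / ((F q).card : ℝ) := by
        field_simp
      rw [h10, div_le_iff₀ hc]
      linarith

end Pool.Agent.L7h98.RA
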