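import Pool.Agent.L7h98.RA.Stm
import Pool.Agent.Helper717.LT.P_T_all

/-!
# Project RA, leaf WT: the weighted semiclassical inequality in the variables `(t, y)`
-/

set_option autoImplicit false

open MeasureTheory Set Filter Topology Real
open scoped Matrix

namespace Pool.Agent.L7h98.RA

open LTd

theorem bco_scale {h g a c : ℝ} (hh : 0 ≤ h) (hg : 1 < g) (ha : 0 < a) (hc : 0 < c) :
    c * bco h g (a / c) = c ^ (h / (g + h - 1)) * bco h g a := by
  have hJ : 0 < JJ h g := bco_succ_JJ_pos hh hg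
  have hgh : 0 < g + h - 1 := by linarith
  unfold bco
  have h1 : JJ h g * (a / c) ^ (g - 1) = (JJ h g * a ^ (g - 1)) * c ^ (-(g - 1)) := by
    rw [Real.div_rpow ha.le hc.le, Real.rpow_neg hc.le]
    field_simp
  rw [h1, Real.mul_rpow (by positivity) (by positivity), ← Real.rpow_mul hc.le]
  have h2 : c ^ (h / (g + h - 1)) = c * c ^ (-(g - 1) * (1 / (g + h - 1))) := by
    have h3 : c * c ^ (-(g - 1) * (1 / (g + h - 1))) =
        c ^ (1 + -(g - 1) * (1 / (g + h - 1))) := by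
      rw [Real.rpow_add hc, Real.rpow_one]
    rw [h3]
    congr 1
    field_simp
    ring
  rw [h2]
  ring

theorem t_WT : S_WT := by
  intro m g a hg ha n w l hw0 hgram
  have hT : Tm m (g + 1 / 2) := T_all m _ (by linarith)
  have hw : ∀ i, ContDiff ℝ 1 (w i) := fun i => (hw0 i).smooth
  have hc : ∀ i, HasCompactSupport (w i) := fun i => (hw0 i).supp
  have hwc : ∀ i, Continuous (w i) := fun i => (hw i).continuous
  have hm0 : (0 : ℝ) ≤ (m : ℝ) := Nat.cast_nonneg m
  have hsys := slice_sys w hw hc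
  have hcw2 : ∀ i j, HasCompactSupport (fun z => w i z * w j z) := fun i j =>
    (hc i).mul_right (f' := w j)
  have hTot : Tot (RS w) = Matrix.diagonal l := by
    ext i j
    have h1 : ∫ z, w i z * w j z = ∫ x : ℝ, ∫ y : Fin m → ℝ,
        w i (Fin.cons x y : Fin (m + 1) → ℝ) * w j (Fin.cons x y : Fin (m + 1) → ℝ) :=
      slice_int (f := fun z => w i z * w j z) ((hwc i).mul (hwc j)) (hcw2 i j)
    rw [hgram i j] at h1
    rw [Matrix.diagonal_apply]
    exact h1.symm
  obtain ⟨G, hGc, hGs, hG1, hG2⟩ := blockC hsys l hTot hg ha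
  have ha' : 0 < bco (1 / 2) g a := bco_pos (by norm_num) (by linarith) ha
  have hpd : ∀ (k : Fin (m + 1)) (i : Fin n), Continuous (pd k (w i)) ∧
      HasCompactSupport (pd k (w i)) := fun k i => pd_basic (hw i) (hc i) k
  have hsqc : ∀ (k : Fin (m + 1)) (i : Fin n), Continuous (fun z => pd k (w i) z ^ 2) :=
    fun k i => (hpd k i).1.pow 2
  have hsqs : ∀ (k : Fin (m + 1)) (i : Fin n), HasCompactSupport (fun z => pd k (w i) z ^ 2) :=
    fun k i => (hpd k i).2.comp_left (g := fun t : ℝ => t ^ 2) (by norm_num)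
  have hsqi : ∀ (k : Fin (m + 1)) (i : Fin n), Integrable (fun z => pd k (w i) z ^ 2) :=
    fun k i => (hsqc k i).integrable_of_hasCompactSupport (hsqs k i)
  -- the exponent
  have hpp : 0 < pp (g + 1 / 2 + m / 2) := by
    unfold pp
    apply div_pos <;> linarith
  have hexp : g + 1 / 2 + (m : ℝ) / 2 = g + ((m : ℝ) + 1) / 2 := by ring
  -- the exponent of the weight
  obtain ⟨θ, hθ⟩ : ∃ θ : ℝ, θ = (m : ℝ) / (2 * g + m - 1) := ⟨_, rfl⟩
  have hθ' : ((m : ℝ) / 2) / (g + 1 / 2 + (m : ℝ) / 2 - 1) = θ := by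
    rw [hθ]
    have h1 : (2 * g + (m : ℝ) - 1) ≠ 0 := by linarith
    have h2 : (g + 1 / 2 + (m : ℝ) / 2 - 1) ≠ 0 := by linarith
    rw [div_eq_div_iff h2 h1]
    ring
  -- the weighted density
  have hρc : Continuous (fun z : Fin (m + 1) → ℝ =>
      Real.exp (2 * z 0 * θ) * (∑ i, w i z ^ 2) ^ pp (g + 1 / 2 + m / 2)) :=
    (by fun_prop : Continuous fun z : Fin (m + 1) → ℝ => Real.exp (2 * z 0 * θ)).mul
      ((continuous_finsetSum _ fun i _ => (hwc i).pow 2).rpow_const (fun _ => Or.inr hpp.le))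
  have hρs : HasCompactSupport (fun z : Fin (m + 1) → ℝ =>
      Real.exp (2 * z 0 * θ) * (∑ i, w i z ^ 2) ^ pp (g + 1 / 2 + m / 2)) := by
    refine HasCompactSupport.intro (isCompact_iUnion (fun i => hc i)) (fun z hz => ?_)
    have h0 : ∀ i, w i z = 0 := fun i =>
      image_eq_zero_of_notMem_tsupport (fun h => hz (Set.mem_iUnion.2 ⟨i, h⟩))
    have h00 : ∑ i, w i z ^ 2 = 0 := by simp [h0]
    show Real.exp (2 * z 0 * θ) * (∑ i, w i z ^ 2) ^ pp (g + 1 / 2 + m / 2) = 0
    rw [h00, Real.zero_rpow hpp.ne', mul_zero]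
  -- the gradient part
  have hDc : Continuous (fun z : Fin (m + 1) → ℝ =>
      Real.exp (2 * z 0) * ∑ k : Fin m, ∑ i, pd k.succ (w i) z ^ 2) :=
    (by fun_prop : Continuous fun z : Fin (m + 1) → ℝ => Real.exp (2 * z 0)).mul
      (continuous_finsetSum _ fun k _ => continuous_finsetSum _ fun i _ => hsqc k.succ i)
  have hDs : HasCompactSupport (fun z : Fin (m + 1) → ℝ =>
      Real.exp (2 * z 0) * ∑ k : Fin m, ∑ i, pd k.succ (w i) z ^ 2) := by
    refine HasCompactSupport.intro (isCompact_iUnion (fun k : Fin m =>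
      isCompact_iUnion (fun i : Fin n => (hsqs k.succ i)))) (fun z hz => ?_)
    have h0 : ∀ (k : Fin m) (i : Fin n), pd k.succ (w i) z ^ 2 = 0 := fun k i =>
      image_eq_zero_of_notMem_tsupport (f := fun z => pd k.succ (w i) z ^ 2)
        (fun h => hz (Set.mem_iUnion.2 ⟨k, Set.mem_iUnion.2 ⟨i, h⟩⟩))
    simp only [h0]
    simp
  -- pointwise inequality
  have hpoint : ∀ x : ℝ, bco (((m + 1 : ℕ) : ℝ) / 2) g a *
      (∫ y : Fin m → ℝ, Real.exp (2 * x * θ) *
        (∑ i, w i (Fin.cons x y : Fin (m + 1) → ℝ) ^ 2) ^ pp (g + 1 / 2 + m / 2)) ≤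
      (∫ y : Fin m → ℝ, Real.exp (2 * x) *
        ∑ k : Fin m, ∑ i, pd k.succ (w i) (Fin.cons x y : Fin (m + 1) → ℝ) ^ 2) + G x := by
    intro x
    obtain ⟨V, r, hV, hV', hr, hR⟩ := specP (sys_psd hsys x)
    have hcx : 0 < Real.exp (2 * x) := Real.exp_pos _
    have h1 := T_slice (a := bco (1 / 2) g a / Real.exp (2 * x)) (by positivity) hT
      (fun i (y : Fin m → ℝ) => w i (Fin.cons x y : Fin (m + 1) → ℝ))
      (fun i => (slice_pd (hw i) x).1) (fun i => (slice_cont (hwc i) (hc i)).2.2.1 x) V r hV hV' hR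
    have h2 := hG1 x V r hV hV' hr hR
    have h3 : ∀ (k : Fin m) (i : Fin n) (y : Fin m → ℝ),
        pd k (fun y : Fin m → ℝ => w i (Fin.cons x y : Fin (m + 1) → ℝ)) y =
          pd k.succ (w i) (Fin.cons x y : Fin (m + 1) → ℝ) := fun k i y =>
      (slice_pd (hw i) x).2 k y
    simp only [h3] at h1
    have h4 := mul_le_mul_of_nonneg_left h1 hcx.le
    rw [← mul_assoc, bco_scale (by positivity) (by linarith) ha' hcx, hθ',
      bco_succ m hg ha, ← Real.exp_mul, mul_add] at h4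
    rw [integral_const_mul, integral_const_mul]
    have h5 : Real.exp (2 * x) * (bco (1 / 2) g a / Real.exp (2 * x) *
        ∑ i, r i ^ pp (g + 1 / 2)) = bco (1 / 2) g a * ∑ i, r i ^ pp (g + 1 / 2) := by
      field_simp
    rw [h5] at h4
    linarith
  -- integrate
  have hint := integral_mono
    ((ts_slice_integrable hρc hρs).const_mul (bco (((m + 1 : ℕ) : ℝ) / 2) g a))
    ((ts_slice_integrable hDc hDs).add (hGc.integrable_of_hasCompactSupport hGs)) (fun x => by
      simp only [Fin.cons_zero, Pi.add_apply]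
      exact hpoint x)
  rw [integral_const_mul, ← slice_int hρc hρs] at hint
  have hadd : ∫ x : ℝ, ((fun x : ℝ => ∫ y : Fin m → ℝ,
      Real.exp (2 * (Fin.cons x y : Fin (m + 1) → ℝ) 0) *
        ∑ k : Fin m, ∑ i, pd k.succ (w i) (Fin.cons x y : Fin (m + 1) → ℝ) ^ 2) + G) x =
      (∫ z : Fin (m + 1) → ℝ, Real.exp (2 * z 0) *
        ∑ k : Fin m, ∑ i, pd k.succ (w i) z ^ 2) + ∫ x, G x := by
    rw [slice_int hDc hDs]
    exact integral_add (ts_slice_integrable hDc hDs) (hGc.integrable_of_hasCompactSupport hGs)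
  have htr : ∫ x, (QS w x).trace = ∫ z, ∑ i, pd 0 (w i) z ^ 2 := by
    rw [integral_finsetSum _ (fun i _ => hsqi 0 i)]
    have h4 : ∀ x, (QS w x).trace = ∑ i, ∫ y : Fin m → ℝ,
        pd 0 (w i) (Fin.cons x y : Fin (m + 1) → ℝ) ^ 2 := by
      intro x
      unfold Matrix.trace
      refine Finset.sum_congr rfl fun i _ => ?_
      simp only [QS, Matrix.diag_apply, Matrix.of_apply, ← sq]
    simp_rw [h4]
    rw [integral_finsetSum _ (fun i _ => ts_slice_integrable (hsqc 0 i) (hsqs 0 i))]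
    refine Finset.sum_congr rfl fun i _ => ?_
    exact (slice_int (hsqc 0 i) (hsqs 0 i)).symm
  have hsplit : ∫ z, ∑ i, eW (w i) z =
      (∫ z, ∑ i, pd 0 (w i) z ^ 2) + ∫ z : Fin (m + 1) → ℝ, Real.exp (2 * z 0) *
        ∑ k : Fin m, ∑ i, pd k.succ (w i) z ^ 2 := by
    rw [← integral_add (integrable_finsetSum _ fun i _ => hsqi 0 i)
      (hDc.integrable_of_hasCompactSupport hDs)]
    congr 1
    funext z
    unfold eW
    rw [Finset.sum_add_distrib, ← Finset.mul_sum, Finset.sum_comm]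
  have hb : (((m + 1 : ℕ) : ℝ) / 2) = ((m : ℝ) + 1) / 2 := by push_cast; ring
  rw [hb] at hint
  rw [← hexp, hsplit, ← hθ]
  rw [htr] at hG2
  have hint' := hint.trans (le_of_eq hadd)
  linarith

end Pool.Agent.L7h98.RA
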