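import Pool.Agent.L7h98.RA.Core
import Pool.Agent.L7h98.RA.WT

/-!
# Project RA, leaf LTW: the sharp Lieb-Thirring inequality, compressed to a finite dimensional space
-/

set_option autoImplicit false

open MeasureTheory Set Filter Topology Matrix

namespace Pool.Agent.L7h98.RA

open LTd (pd pp bco cc JJ pd_basic pd_sum bco_succ_cc_pos bco_succ_JJ_pos bco_pos specS)

/-- the eigenvalues of the complexification -/
theorem eig_mc {m : ℕ} {Q V : Matrix (Fin m) (Fin m) ℝ} {r : Fin m → ℝ}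
    (hV' : Vᵀ * V = 1) (hQ : Q = V * Matrix.diagonal r * Vᵀ) (hH : (mc Q).IsHermitian)
    (f : ℝ → ENNReal) : ∑ i, f (hH.eigenvalues i) = ∑ i, f (r i) := by
  have h1 : (mc Q).charpoly = ∏ i, (Polynomial.X - Polynomial.C ((r i : ℝ) : ℂ)) := by
    have h2 : Q.charpoly = ∏ i, (Polynomial.X - Polynomial.C (r i)) := by
      have h3 : Q.charpoly = (Matrix.diagonal r).charpoly := by
        rw [hQ, Matrix.charpoly_mul_comm, ← Matrix.mul_assoc, hV', Matrix.one_mul]
      rw [h3, Matrix.charpoly_diagonal]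
    have h5 : (mc Q).charpoly = Q.charpoly.map Complex.ofRealHom := by
      rw [← Matrix.charpoly_map]
      rfl
    rw [h5, h2, Polynomial.map_prod]
    refine Finset.prod_congr rfl fun i _ => ?_
    simp
  have h6 := hH.roots_charpoly_eq_eigenvalues
  have h9 : (∏ i, (Polynomial.X - Polynomial.C ((r i : ℝ) : ℂ))).roots =
      Multiset.map (fun i => ((r i : ℝ) : ℂ)) Finset.univ.val := by
    rw [Polynomial.roots_prod]
    · simp
    · simp [Finset.prod_ne_zero_iff, Polynomial.X_sub_C_ne_zero]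
  rw [h1, h9] at h6
  have h7 : Multiset.map (fun i => f (hH.eigenvalues i)) Finset.univ.val =
      Multiset.map (fun i => f (r i)) Finset.univ.val := by
    have h8 := congrArg (Multiset.map fun z : ℂ => f z.re) h6
    rw [Multiset.map_map, Multiset.map_map] at h8
    simp only [Function.comp_def, RCLike.ofReal_eq_complex_ofReal, Complex.ofReal_re] at h8
    exact h8.symm
  exact congrArg Multiset.sum h7

theorem young {D b x y : ℝ} (hD : 1 < D) (hb : 0 < b) (hx : 0 ≤ x) :
    x * y - b * x ^ pp D ≤ cc D * b ^ (-(D - 1)) * (max y 0) ^ D := by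
  have hD1 : 0 < D - 1 := by linarith
  have hD0 : 0 < D := by linarith
  have hp : 1 < pp D := by
    unfold pp
    rw [lt_div_iff₀ hD1]
    linarith
  have hp0 : 0 < pp D := by linarith
  have h1 : x * y ≤ x * max y 0 := mul_le_mul_of_nonneg_left (le_max_left _ _) hx
  set Y := max y 0 with hY
  have hY0 : 0 ≤ Y := le_max_right _ _
  have hc : 0 < b * pp D := by positivity
  have hconj : (pp D).HolderConjugate D := by
    rw [Real.holderConjugate_iff]
    refine ⟨hp, ?_⟩
    unfold pp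
    field_simp
    ring
  have h2 := Real.young_inequality_of_nonneg (a := (b * pp D) ^ (1 / pp D) * x)
    (b := (b * pp D) ^ (-(1 / pp D)) * Y) (by positivity) (by positivity) hconj
  have h3 : (b * pp D) ^ (1 / pp D) * x * ((b * pp D) ^ (-(1 / pp D)) * Y) = x * Y := by
    have h4 : (b * pp D) ^ (1 / pp D) * (b * pp D) ^ (-(1 / pp D)) = 1 := by
      rw [← Real.rpow_add hc, add_neg_cancel, Real.rpow_zero]
    calc _ = ((b * pp D) ^ (1 / pp D) * (b * pp D) ^ (-(1 / pp D))) * (x * Y) := by ring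
      _ = _ := by rw [h4, one_mul]
  have h5 : ((b * pp D) ^ (1 / pp D) * x) ^ pp D / pp D = b * x ^ pp D := by
    rw [Real.mul_rpow (by positivity) hx, ← Real.rpow_mul hc.le, one_div_mul_cancel hp0.ne',
      Real.rpow_one]
    field_simp
  have h6 : ((b * pp D) ^ (-(1 / pp D)) * Y) ^ D / D = cc D * b ^ (-(D - 1)) * Y ^ D := by
    rw [Real.mul_rpow (by positivity) hY0, ← Real.rpow_mul hc.le]
    have h7 : -(1 / pp D) * D = -(D - 1) := by
      unfold pp
      field_simp
    rw [h7, Real.mul_rpow hb.le hp0.le]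
    have h8 : (pp D) ^ (-(D - 1)) / D = cc D := by
      unfold pp cc
      rw [Real.rpow_neg (by positivity), Real.div_rpow hD0.le hD1.le, inv_div]
      have h9 : D ^ D = D ^ (D - 1) * D := by
        rw [← Real.rpow_add_one hD0.ne', sub_add_cancel]
      rw [h9]
      field_simp
    rw [← h8]
    ring
  rw [h3, h5, h6] at h2
  linarith

theorem young_eq {g y : ℝ} (hg : 1 < g) (hy : 0 ≤ y) :
    (y / pp g) ^ (g - 1) * y - ((y / pp g) ^ (g - 1)) ^ pp g = cc g * y ^ g := by
  have hg1 : 0 < g - 1 := by linarith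
  have hg0 : 0 < g := by linarith
  have hp : 0 < pp g := by unfold pp; positivity
  have hyp : 0 ≤ y / pp g := by positivity
  rw [← Real.rpow_mul hyp]
  have h1 : (g - 1) * pp g = g := by unfold pp; field_simp
  rw [h1]
  rcases hy.eq_or_lt with h0 | h0
  · rw [← h0, zero_div, mul_zero, Real.zero_rpow hg0.ne', mul_zero, sub_zero]
  · have hpw : ∀ x : ℝ, 0 < x → x ^ g = x ^ (g - 1) * x := fun x hx => by
      rw [← Real.rpow_add_one hx.ne', sub_add_cancel]
    have h2 : (y / pp g) ^ g = (y / pp g) ^ (g - 1) * (y / pp g) := hpw _ (by positivity)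
    have h3 : y ^ g = y ^ (g - 1) * y := hpw _ h0
    have h4 : g ^ g = g ^ (g - 1) * g := hpw _ hg0
    rw [h2, h3, Real.div_rpow hy hp.le]
    unfold cc
    rw [h4]
    have h5 : (pp g) ^ (g - 1) = g ^ (g - 1) / (g - 1) ^ (g - 1) := by
      unfold pp
      rw [Real.div_rpow hg0.le hg1.le]
    rw [h5]
    unfold pp
    field_simp
    ring

theorem ofReal_integral_le' {n : ℕ} {f : (Fin n → ℝ) → ℝ} (hf : Integrable f) :
    ENNReal.ofReal (∫ x, f x) ≤ ∫⁻ x, ENNReal.ofReal (f x) := by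
  have h1 : Integrable (fun x => max (f x) 0) := hf.pos_part
  have h2 : ∫ x, f x ≤ ∫ x, max (f x) 0 := integral_mono hf h1 fun x => le_max_left _ _
  refine (ENNReal.ofReal_le_ofReal h2).trans ?_
  rw [ofReal_integral_eq_lintegral_ofReal h1 (ae_of_all _ fun x => le_max_right _ _)]
  refine lintegral_mono fun x => ?_
  rcases le_total (f x) 0 with h | h
  · simp [max_eq_right h]
  · simp [max_eq_left h]

theorem LW_eq {a k : ℕ} (ha : 6 ≤ a) :
    cc (((a : ℝ) + k) / 2) * (bco (((k : ℝ) + 1) / 2) (((a : ℝ) - 1) / 2) 1) ^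
      (-(((a : ℝ) + k) / 2 - 1)) = cc (((a : ℝ) - 1) / 2) * LW a k := by
  have ha' : (6 : ℝ) ≤ a := by exact_mod_cast ha
  have hk : (0 : ℝ) ≤ k := Nat.cast_nonneg k
  set g : ℝ := ((a : ℝ) - 1) / 2 with hg
  set h : ℝ := ((k : ℝ) + 1) / 2 with hh
  have hgh : g + h = ((a : ℝ) + k) / 2 := by rw [hg, hh]; ring
  have hg1 : 1 < g := by rw [hg]; linarith
  have hJ : 0 < JJ h g := bco_succ_JJ_pos (by positivity) hg1
  have hc1 : 0 < cc g := bco_succ_cc_pos hg1
  have hc2 : 0 < cc (g + h) := bco_succ_cc_pos (by linarith [show (0 : ℝ) ≤ h by positivity])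
  have hG1 : 0 < Real.Gamma (g + 1) := Real.Gamma_pos_of_pos (by linarith)
  have hG2 : 0 < Real.Gamma (g + 1 + h) := Real.Gamma_pos_of_pos (by
    have : (0 : ℝ) ≤ h := by positivity
    linarith)
  rw [← hgh]
  have h1 : bco h g 1 ^ (-(g + h - 1)) = (JJ h g)⁻¹ := by
    unfold bco
    rw [Real.one_rpow, mul_one, ← Real.rpow_mul hJ.le]
    have : 1 / (g + h - 1) * -(g + h - 1) = -1 := by
      have : g + h - 1 ≠ 0 := by
        have : (0 : ℝ) ≤ h := by positivity
        linarith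
      field_simp
    rw [this, Real.rpow_neg_one]
  rw [h1]
  unfold JJ LW
  have h2 : ((a : ℝ) + 1) / 2 = g + 1 := by rw [hg]; ring
  have h3 : ((a : ℝ) + k) / 2 + 1 = g + 1 + h := by rw [hg, hh]; ring
  rw [h2, h3, ← hh]
  have hpi : 0 < (4 * Real.pi) ^ h := by positivity
  field_simp

theorem q_one {n m : ℕ} {ψ : Fin m → (Fin (n + 1) → ℝ) → ℝ} (hψ : ∀ i, Cc1 (ψ i))
    (ho : ∀ i j, ∫ s, ψ i s * ψ j s = if i = j then (1 : ℝ) else 0) (v w : Fin m → ℝ) :
    v ⬝ᵥ w = ∫ s, (∑ i, v i * ψ i s) * (∑ j, w j * ψ j s) := by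
  have hψc : ∀ i, Continuous (ψ i) := fun i => (hψ i).smooth.continuous
  have i1 : ∀ i j, Integrable (fun s => ψ i s * ψ j s) := fun i j =>
    ((hψc i).mul (hψc j)).integrable_of_hasCompactSupport ((hψ i).supp.mul_right)
  have h1 := quad (H := fun i j s => ψ i s * ψ j s) i1 v w
  have h2 : GM (fun i j s => ψ i s * ψ j s) = 1 := by
    ext i j
    show ∫ s, ψ i s * ψ j s = _
    rw [ho i j, Matrix.one_apply]
  rw [h2, Matrix.one_mulVec] at h1
  rw [h1]
  congr 1
  funext s
  rw [Finset.sum_mul_sum]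
  refine Finset.sum_congr rfl fun i _ => Finset.sum_congr rfl fun j _ => by ring

theorem t_LTW (hWT : S_WT) : S_LTW := by
  intro a k m ha ψ hψ ho U hU hUC Q hform hQ
  obtain ⟨C, hC⟩ := hUC
  have ha' : (6 : ℝ) ≤ a := by exact_mod_cast ha
  have hk : (0 : ℝ) ≤ k := Nat.cast_nonneg k
  obtain ⟨g, hg⟩ : ∃ g : ℝ, g = ((a : ℝ) - 1) / 2 := ⟨_, rfl⟩
  obtain ⟨D, hD⟩ : ∃ D : ℝ, D = ((a : ℝ) + k) / 2 := ⟨_, rfl⟩
  have hg1 : 1 < g := by rw [hg]; linarith
  have hg0 : 0 < g := by linarith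
  have hgm : 0 < g - 1 := by linarith
  have hD1 : 1 < D := by rw [hD]; linarith
  have hp : 0 < pp g := by unfold pp; positivity
  have hψc : ∀ i, Continuous (ψ i) := fun i => (hψ i).smooth.continuous
  have he : Continuous fun s : Fin (k + 1) → ℝ => Real.exp (2 * s 0) := by fun_prop
  -- diagonalisation
  have hQG : Q = GM (HF ψ U) := by
    ext i j
    exact hform i j
  have hsym : ∀ i j, Q i j = Q j i := by
    intro i j
    rw [hQG]
    show ∫ s, HF ψ U i j s = ∫ s, HF ψ U j i s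
    congr 1
    funext s
    unfold HF
    have : ∑ r : Fin k, pd r.succ (ψ j) s * pd r.succ (ψ i) s =
        ∑ r : Fin k, pd r.succ (ψ i) s * pd r.succ (ψ j) s :=
      Finset.sum_congr rfl fun r _ => mul_comm _ _
    rw [this]
    ring
  obtain ⟨V, r, hV, hV', hQe⟩ := specS hsym
  rw [eig_mc hV' hQe hQ (fun e => ENNReal.ofReal ((max (-e) 0) ^ (((a : ℝ) - 1) / 2))), ← hg, ← hD]
  -- the occupation numbers
  obtain ⟨y, hy⟩ : ∃ y : Fin m → ℝ, ∀ i, y i = max (-r i) 0 := ⟨_, fun _ => rfl⟩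
  have hy0 : ∀ i, 0 ≤ y i := fun i => by rw [hy]; exact le_max_right _ _
  obtain ⟨l, hl⟩ : ∃ l : Fin m → ℝ, ∀ i, l i = (y i / pp g) ^ (g - 1) := ⟨_, fun _ => rfl⟩
  have hl0 : ∀ i, 0 ≤ l i := fun i => by
    rw [hl]
    have := hy0 i
    positivity
  have hly : ∀ i, l i * y i = -(l i * r i) := by
    intro i
    rcases le_or_gt 0 (r i) with h | h
    · have h1 : y i = 0 := by rw [hy, max_eq_right (by linarith)]
      have h2 : l i = 0 := by rw [hl, h1, zero_div, Real.zero_rpow hgm.ne']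
      rw [h2]
      ring
    · have h1 : y i = -r i := by rw [hy, max_eq_left (by linarith)]
      rw [h1]
      ring
  -- the functions
  obtain ⟨c, hc⟩ : ∃ c : Fin m → Fin m → ℝ, ∀ i j, c i j = √(l i) * V j i := ⟨_, fun _ _ => rfl⟩
  have hcV : ∀ i, Vᵀ *ᵥ c i = √(l i) • Pi.single i (1 : ℝ) := by
    intro i
    have h1 : c i = √(l i) • (V *ᵥ Pi.single i (1 : ℝ)) := by
      funext j
      rw [hc, Pi.smul_apply, smul_eq_mul, Matrix.mulVec_single_one]
      rfl
    rw [h1, Matrix.mulVec_smul, Matrix.mulVec_mulVec, hV', Matrix.one_mulVec]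
  have hcc : ∀ i i', c i ⬝ᵥ c i' = if i = i' then l i else 0 := by
    intro i i'
    have h1 : c i ⬝ᵥ c i' = (Vᵀ *ᵥ c i) ⬝ᵥ (Vᵀ *ᵥ c i') := by
      rw [Matrix.dotProduct_mulVec, Matrix.vecMul_transpose, Matrix.mulVec_mulVec, hV,
        Matrix.one_mulVec]
    rw [h1, hcV, hcV, smul_dotProduct, dotProduct_smul, single_one_dotProduct, smul_eq_mul,
      smul_eq_mul, Pi.single_apply]
    by_cases h : i = i'
    · subst h
      simp [Real.mul_self_sqrt (hl0 i)]
    · rw [if_neg h, if_neg h]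
      ring
  have hcQ : ∀ i, c i ⬝ᵥ (Q *ᵥ c i) = l i * r i := by
    intro i
    have h1 : c i ⬝ᵥ (Q *ᵥ c i) = (Vᵀ *ᵥ c i) ⬝ᵥ (Matrix.diagonal r *ᵥ (Vᵀ *ᵥ c i)) := by
      rw [hQe, ← Matrix.mulVec_mulVec, ← Matrix.mulVec_mulVec, Matrix.dotProduct_mulVec (c i) V,
        ← Matrix.mulVec_transpose]
    rw [h1, hcV, Matrix.mulVec_smul, smul_dotProduct, dotProduct_smul, single_one_dotProduct,
      Matrix.mulVec_diagonal, Pi.single_eq_same, smul_eq_mul, smul_eq_mul, mul_one, ← mul_assoc,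
      Real.mul_self_sqrt (hl0 i)]
  obtain ⟨w, hw⟩ : ∃ w : Fin m → (Fin (k + 1) → ℝ) → ℝ, w = fun i s => ∑ j, c i j * ψ j s :=
    ⟨_, rfl⟩
  have hwc : ∀ i, Cc1 (w i) := by
    intro i
    rw [hw]
    refine ⟨ContDiff.sum fun j _ => contDiff_const.mul (hψ j).smooth, ?_⟩
    apply HasCompactSupport.intro (K := ⋃ i, tsupport (ψ i))
      (isCompact_iUnion fun i => (hψ i).supp)
    intro x hx
    rw [Set.mem_iUnion, not_exists] at hx
    apply Finset.sum_eq_zero
    intro i _
    rw [image_eq_zero_of_notMem_tsupport (hx i), mul_zero]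
  have hgram : ∀ i i', ∫ s, w i s * w i' s = if i = i' then l i else 0 := by
    intro i i'
    rw [← hcc i i', q_one hψ ho, hw]
  have hwcont : ∀ i, Continuous (w i) := fun i => (hwc i).smooth.continuous
  have hsqs : ∀ i, HasCompactSupport (fun s => w i s ^ 2) := fun i =>
    (hwc i).supp.comp_left (g := fun t : ℝ => t ^ 2) (by norm_num)
  have ieW : ∀ i, Integrable (eW (w i)) := by
    intro i
    have h1 := int_HF (ψ := fun _ : Fin 1 => w i) (fun _ => hwc i) (U := fun _ => (0 : ℝ))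
      measurable_const (C := 0) (fun s => by simp) 0 0
    refine h1.congr (Eventually.of_forall fun s => ?_)
    simp only [HF, eW, mul_zero, zero_mul, sub_zero, sq]
  have iU : ∀ i, Integrable (fun s : Fin (k + 1) → ℝ => Real.exp (2 * s 0) * U s *
      w i s ^ 2) := by
    intro i
    have hcont2 : Continuous (fun s : Fin (k + 1) → ℝ => Real.exp (2 * s 0) * w i s ^ 2) :=
      he.mul ((hwcont i).pow 2)
    have hsup2 : HasCompactSupport (fun s : Fin (k + 1) → ℝ => Real.exp (2 * s 0) * w i s ^ 2) :=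
      HasCompactSupport.mul_left (f := fun s : Fin (k + 1) → ℝ => Real.exp (2 * s 0)) (hsqs i)
    have h1 := int_bdd hU hC hcont2 hsup2
    refine h1.congr (Eventually.of_forall fun s => ?_)
    simp only []
    ring
  have hE : ∀ i, (∫ s, eW (w i) s) - ∫ s : Fin (k + 1) → ℝ, Real.exp (2 * s 0) * U s *
      w i s ^ 2 = l i * r i := by
    intro i
    rw [← hcQ i, hQG, quad (int_HF hψ hU hC), ← integral_sub (ieW i) (iU i)]
    congr 1
    funext s
    rw [HF_sum ψ hψ, hw]
  -- the weighted inequality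
  have hwt := hWT k g 1 (by rw [hg]; linarith) one_pos m w l hwc hgram
  have hgD : g + ((k : ℝ) + 1) / 2 = D := by rw [hg, hD]; ring
  have hθ : (k : ℝ) / (2 * g + k - 1) = k / (a + k - 2) := by rw [hg]; congr 1; ring
  rw [hgD, hθ, one_mul] at hwt
  obtain ⟨b, hb⟩ : ∃ b : ℝ, b = bco (((k : ℝ) + 1) / 2) g 1 := ⟨_, rfl⟩
  have hb0 : 0 < b := by rw [hb]; exact bco_pos (by positivity) hg1 one_pos
  rw [← hb] at hwt
  obtain ⟨ρ, hρ⟩ : ∃ ρ : (Fin (k + 1) → ℝ) → ℝ, ρ = fun s => ∑ i, w i s ^ 2 := ⟨_, rfl⟩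
  have hρ0 : ∀ s, 0 ≤ ρ s := fun s => by rw [hρ]; exact Finset.sum_nonneg fun i _ => sq_nonneg _
  have hρs : ∀ s, ∑ i, w i s ^ 2 = ρ s := fun s => by rw [hρ]
  simp only [hρs] at hwt
  have hppD : 0 < pp D := by unfold pp; apply div_pos <;> linarith
  have hρc : Continuous ρ := by
    rw [hρ]
    exact continuous_finsetSum _ fun i _ => (hwcont i).pow 2
  have hρp : Continuous fun s : Fin (k + 1) → ℝ =>
      Real.exp (2 * s 0 * (k / (a + k - 2))) * ρ s ^ pp D :=
    (by fun_prop : Continuous fun s : Fin (k + 1) → ℝ =>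
      Real.exp (2 * s 0 * (k / (a + k - 2)))).mul (hρc.rpow_const fun _ => Or.inr hppD.le)
  have hρsupp : ∀ s, s ∉ ⋃ i, tsupport (w i) → ρ s = 0 := by
    intro s hs
    rw [Set.mem_iUnion, not_exists] at hs
    rw [hρ]
    apply Finset.sum_eq_zero
    intro i _
    rw [image_eq_zero_of_notMem_tsupport (hs i)]
    norm_num
  have iρ : Integrable fun s : Fin (k + 1) → ℝ =>
      Real.exp (2 * s 0 * (k / (a + k - 2))) * ρ s ^ pp D :=
    hρp.integrable_of_hasCompactSupport (HasCompactSupport.intro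
      (isCompact_iUnion fun i => (hwc i).supp) fun s hs => by
        rw [hρsupp s hs, Real.zero_rpow hppD.ne', mul_zero])
  have iUρ : Integrable fun s : Fin (k + 1) → ℝ => Real.exp (2 * s 0) * U s * ρ s := by
    have h1 : (fun s : Fin (k + 1) → ℝ => Real.exp (2 * s 0) * U s * ρ s) = fun s =>
        ∑ i, Real.exp (2 * s 0) * U s * w i s ^ 2 := by
      funext s
      rw [hρ, Finset.mul_sum]
    rw [h1]
    exact integrable_finsetSum _ fun i _ => iU i
  have hsumU : ∑ i, ∫ s : Fin (k + 1) → ℝ, Real.exp (2 * s 0) * U s * w i s ^ 2 =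
      ∫ s : Fin (k + 1) → ℝ, Real.exp (2 * s 0) * U s * ρ s := by
    rw [← integral_finsetSum _ fun i _ => iU i]
    congr 1
    funext s
    rw [hρ, Finset.mul_sum]
  have hsumE : ∫ s, ∑ i, eW (w i) s = ∑ i, ∫ s, eW (w i) s :=
    integral_finsetSum _ fun i _ => ieW i
  -- the sum
  have hsum : cc g * ∑ i, y i ^ g ≤ ∫ s : Fin (k + 1) → ℝ, (Real.exp (2 * s 0) * U s * ρ s -
      b * (Real.exp (2 * s 0 * (k / (a + k - 2))) * ρ s ^ pp D)) := by
    rw [integral_sub iUρ (iρ.const_mul b), integral_const_mul, ← hsumU]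
    have h1 : cc g * ∑ i, y i ^ g = ∑ i, (l i * y i - l i ^ pp g) := by
      rw [Finset.mul_sum]
      refine Finset.sum_congr rfl fun i _ => ?_
      rw [← young_eq hg1 (hy0 i), ← hl i]
    rw [h1, Finset.sum_sub_distrib]
    have h2 : ∑ i, l i * y i = (∑ i, ∫ s : Fin (k + 1) → ℝ, Real.exp (2 * s 0) * U s *
        w i s ^ 2) - ∑ i, ∫ s, eW (w i) s := by
      rw [← Finset.sum_sub_distrib]
      refine Finset.sum_congr rfl fun i _ => ?_
      rw [hly i, ← hE i]
      ring
    rw [h2, ← hsumE]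
    linarith
  -- Young's inequality
  have hpt : ∀ s : Fin (k + 1) → ℝ, Real.exp (2 * s 0) * U s * ρ s -
      b * (Real.exp (2 * s 0 * (k / (a + k - 2))) * ρ s ^ pp D) ≤
      cc D * b ^ (-(D - 1)) * (Real.exp (a * s 0) * (max (U s) 0) ^ D) := by
    intro s
    have hak : (0 : ℝ) < a + k := by linarith
    have hak2 : (0 : ℝ) < a + k - 2 := by linarith
    have h1 := young (x := Real.exp (2 * s 0 * (k / (a + k))) * ρ s)
      (y := Real.exp (2 * s 0 * (a / (a + k))) * U s) hD1 hb0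
      (mul_nonneg (Real.exp_pos _).le (hρ0 s))
    have h2 : Real.exp (2 * s 0 * (k / (a + k))) * ρ s *
        (Real.exp (2 * s 0 * (a / (a + k))) * U s) = Real.exp (2 * s 0) * U s * ρ s := by
      have h3 : Real.exp (2 * s 0) = Real.exp (2 * s 0 * (k / (a + k))) *
          Real.exp (2 * s 0 * (a / (a + k))) := by
        rw [← Real.exp_add]
        congr 1
        field_simp
        ring
      rw [h3]
      ring
    have h4 : (Real.exp (2 * s 0 * (k / (a + k))) * ρ s) ^ pp D =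
        Real.exp (2 * s 0 * (k / (a + k - 2))) * ρ s ^ pp D := by
      rw [Real.mul_rpow (Real.exp_pos _).le (hρ0 s), ← Real.exp_mul]
      congr 2
      unfold pp
      rw [hD]
      have : ((a : ℝ) + k) / 2 - 1 = (a + k - 2) / 2 := by ring
      rw [this]
      field_simp
    have h5 : (max (Real.exp (2 * s 0 * (a / (a + k))) * U s) 0) ^ D =
        Real.exp (a * s 0) * (max (U s) 0) ^ D := by
      have h6 : max (Real.exp (2 * s 0 * (a / (a + k))) * U s) 0 =
          Real.exp (2 * s 0 * (a / (a + k))) * max (U s) 0 := by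
        rw [mul_max_of_nonneg _ _ (Real.exp_pos _).le, mul_zero]
      rw [h6, Real.mul_rpow (Real.exp_pos _).le (le_max_right _ _), ← Real.exp_mul]
      congr 2
      rw [hD]
      field_simp
    rw [h2, h4, h5] at h1
    exact h1
  have hcc0 : 0 < cc g := bco_succ_cc_pos hg1
  have hccD : 0 < cc D := bco_succ_cc_pos hD1
  have hconst : cc D * b ^ (-(D - 1)) = cc g * LW a k := by
    have := LW_eq (a := a) (k := k) ha
    rw [← hD, ← hg, ← hb] at this
    exact this
  have hLW : 0 ≤ LW a k := by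
    have h1 : 0 < cc g * LW a k := by
      rw [← hconst]
      positivity
    exact (pos_of_mul_pos_right h1 hcc0.le).le
  have hfin : ENNReal.ofReal (cc g * ∑ i, y i ^ g) ≤ ENNReal.ofReal (cc g * LW a k) *
      ∫⁻ s : Fin (k + 1) → ℝ, ENNReal.ofReal (Real.exp (a * s 0) * (max (U s) 0) ^ D) := by
    refine (ENNReal.ofReal_le_ofReal hsum).trans ((ofReal_integral_le'
      (iUρ.sub (iρ.const_mul b))).trans ?_)
    rw [← lintegral_const_mul' _ _ ENNReal.ofReal_ne_top]
    refine lintegral_mono fun s => ?_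
    rw [← ENNReal.ofReal_mul (by positivity), ← hconst]
    exact ENNReal.ofReal_le_ofReal (hpt s)
  rw [ENNReal.ofReal_mul hcc0.le, ENNReal.ofReal_mul hcc0.le, mul_assoc] at hfin
  have h7 := (ENNReal.mul_le_mul_iff_right (ENNReal.ofReal_pos.2 hcc0).ne'
    ENNReal.ofReal_ne_top).1 hfin
  refine le_trans (le_of_eq ?_) h7
  rw [ENNReal.ofReal_sum_of_nonneg fun i _ => Real.rpow_nonneg (hy0 i) _]
  refine Finset.sum_congr rfl fun i _ => ?_
  rw [hy]

end Pool.Agent.L7h98.RA
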