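import Pool.Agent.L7h98.RA.Stm
import Pool.Agent.N537.RS.Int
import Pool.Agent.Helper717.LT.P_specS

/-!
# Project RA, leaf SUB: families with Gram matrix at most one
-/

set_option autoImplicit false

open MeasureTheory Set Filter Topology Matrix
open scoped ComplexOrder

namespace Pool.Agent.L7h98.RA

open Pool.Agent.N537.RS

namespace SUB

variable {m : ℕ}

/-- a real vector as a complex vector -/
def vc (v : Fin m → ℝ) : Fin m → ℂ := fun i => (v i : ℂ)

theorem star_vc (v : Fin m → ℝ) : star (vc v) = vc v := by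
  funext i
  simp [vc]

theorem vc_dot (v w : Fin m → ℝ) : vc v ⬝ᵥ vc w = ((v ⬝ᵥ w : ℝ) : ℂ) := by
  unfold dotProduct vc
  push_cast
  rfl

theorem mc_vc (A : Matrix (Fin m) (Fin m) ℝ) (w : Fin m → ℝ) : mc A *ᵥ vc w = vc (A *ᵥ w) := by
  funext i
  unfold mulVec dotProduct vc mc
  push_cast
  rfl

theorem symm_dot {M : Matrix (Fin m) (Fin m) ℝ} (hM : M.IsSymm) (v w : Fin m → ℝ) :
    v ⬝ᵥ (M *ᵥ w) = w ⬝ᵥ (M *ᵥ v) := by
  rw [Matrix.dotProduct_mulVec, ← Matrix.mulVec_transpose, hM.eq, dotProduct_comm]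

theorem mc_posDef {M : Matrix (Fin m) (Fin m) ℝ} (hM : M.IsSymm)
    (hp : ∀ v : Fin m → ℝ, v ≠ 0 → 0 < v ⬝ᵥ (M *ᵥ v)) : (mc M).PosDef := by
  have hH : (mc M).IsHermitian := by
    apply Matrix.IsHermitian.ext
    intro i j
    simp only [mc, Matrix.map_apply]
    rw [Complex.star_def, Complex.conj_ofReal, hM.apply]
  apply Matrix.PosDef.of_dotProduct_mulVec_pos hH
  intro x hx
  obtain ⟨p, hpd⟩ : ∃ p : Fin m → ℝ, ∀ i, p i = (x i).re := ⟨_, fun _ => rfl⟩
  obtain ⟨q, hqd⟩ : ∃ q : Fin m → ℝ, ∀ i, q i = (x i).im := ⟨_, fun _ => rfl⟩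
  have hxe : x = vc p + Complex.I • vc q := by
    funext i
    simp only [Pi.add_apply, Pi.smul_apply, smul_eq_mul, vc, hpd, hqd]
    rw [mul_comm]
    exact (Complex.re_add_im _).symm
  have hsx : star x = vc p - Complex.I • vc q := by
    rw [hxe, star_add, star_smul, star_vc, star_vc]
    simp only [Complex.star_def, Complex.conj_I, neg_smul, sub_eq_add_neg]
  have h1 : star x ⬝ᵥ (mc M *ᵥ x) = ((p ⬝ᵥ (M *ᵥ p) + q ⬝ᵥ (M *ᵥ q) : ℝ) : ℂ) := by
    rw [hsx]
    conv_lhs => rw [hxe]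
    rw [Matrix.mulVec_add, Matrix.mulVec_smul, mc_vc, mc_vc, sub_dotProduct, dotProduct_add,
      dotProduct_add, smul_dotProduct, smul_dotProduct, dotProduct_smul, dotProduct_smul,
      vc_dot, vc_dot, vc_dot, vc_dot, symm_dot hM q p]
    simp only [smul_eq_mul]
    have hI : Complex.I * Complex.I = -1 := Complex.I_mul_I
    push_cast
    linear_combination (-(((q ⬝ᵥ (M *ᵥ q) : ℝ) : ℂ))) * hI
  rw [h1, Complex.zero_lt_real]
  have hnn : ∀ v : Fin m → ℝ, 0 ≤ v ⬝ᵥ (M *ᵥ v) := by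
    intro v
    by_cases h : v = 0
    · rw [h, zero_dotProduct]
    · exact (hp v h).le
  by_cases h : p = 0
  · have hq : q ≠ 0 := by
      intro h2
      apply hx
      rw [hxe, h, h2]
      funext i
      simp [vc]
    have := hp q hq
    have := hnn p
    linarith
  · have := hp p h
    have := hnn q
    linarith

/-- orthogonal mixing does not change the sum of a quadratic form -/
theorem mix {N : ℕ} {W : Matrix (Fin N) (Fin N) ℝ} (hW : W * Wᵀ = 1) (v : Fin N → Fin m → ℝ)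
    (B : Matrix (Fin m) (Fin m) ℝ) :
    ∑ i, (∑ n, W n i • v n) ⬝ᵥ (B *ᵥ (∑ n, W n i • v n)) = ∑ n, v n ⬝ᵥ (B *ᵥ v n) := by
  have h1 : ∀ i, (∑ n, W n i • v n) ⬝ᵥ (B *ᵥ (∑ n, W n i • v n)) =
      ∑ n, ∑ n', (W n i * W n' i) * (v n ⬝ᵥ (B *ᵥ v n')) := by
    intro i
    rw [Matrix.mulVec_sum, sum_dotProduct]
    refine Finset.sum_congr rfl fun n _ => ?_
    rw [dotProduct_sum]
    refine Finset.sum_congr rfl fun n' _ => ?_
    rw [Matrix.mulVec_smul, smul_dotProduct, dotProduct_smul, smul_eq_mul, smul_eq_mul, mul_assoc]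
  simp only [h1]
  rw [Finset.sum_comm]
  refine Finset.sum_congr rfl fun n _ => ?_
  rw [Finset.sum_comm]
  have h2 : ∀ n', ∑ i, (W n i * W n' i) * (v n ⬝ᵥ (B *ᵥ v n')) =
      if n = n' then v n ⬝ᵥ (B *ᵥ v n') else 0 := by
    intro n'
    rw [← Finset.sum_mul]
    have h3 := congrFun (congrFun hW n) n'
    rw [Matrix.mul_apply, Matrix.one_apply] at h3
    simp only [Matrix.transpose_apply] at h3
    rw [h3]
    split_ifs <;> simp
  simp only [h2, Finset.sum_ite_eq, Finset.mem_univ, if_true]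

end SUB

open SUB

theorem t_SUB (hINT : S_INT) : S_SUB := by
  classical
  intro m A M hA hM hp N v hv lam
  -- the Gram matrix
  obtain ⟨G, hG⟩ : ∃ G : Matrix (Fin N) (Fin N) ℝ, G = Matrix.of fun n n' => v n ⬝ᵥ (M *ᵥ v n') :=
    ⟨_, rfl⟩
  have hGe : ∀ n n', G n n' = v n ⬝ᵥ (M *ᵥ v n') := fun n n' => by rw [hG]; rfl
  obtain ⟨W, e, hW, hW', hGW⟩ := LTd.specS (M := G) (fun n n' => by
    rw [hGe, hGe, symm_dot hM])
  obtain ⟨v', hv'⟩ : ∃ v' : Fin N → Fin m → ℝ, ∀ i, v' i = ∑ n, W n i • v n := ⟨_, fun _ => rfl⟩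
  have horth : ∀ i j, v' i ⬝ᵥ (M *ᵥ v' j) = if i = j then e i else 0 := by
    intro i j
    have h1 : v' i ⬝ᵥ (M *ᵥ v' j) = (Wᵀ * G * W) i j := by
      rw [hv', hv', Matrix.mulVec_sum, sum_dotProduct, Matrix.mul_apply]
      simp only [Matrix.mul_apply, Finset.sum_mul, dotProduct_sum]
      rw [Finset.sum_comm]
      refine Finset.sum_congr rfl fun n' _ => ?_
      refine Finset.sum_congr rfl fun n _ => ?_
      rw [Matrix.mulVec_smul, smul_dotProduct, dotProduct_smul, smul_eq_mul, smul_eq_mul, hGe,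
        Matrix.transpose_apply]
      ring
    have h2 : Wᵀ * G * W = Matrix.diagonal e := by
      rw [hGW, ← Matrix.mul_assoc, ← Matrix.mul_assoc, hW', Matrix.one_mul, Matrix.mul_assoc,
        hW', Matrix.mul_one]
    rw [h1, h2, Matrix.diagonal_apply]
  have he1 : ∀ i, e i ≤ 1 := by
    intro i
    have h1 := hv (fun n => W n i)
    rw [← hv', horth, if_pos rfl] at h1
    have h2 : ∑ n, W n i ^ 2 = 1 := by
      have h3 := congrFun (congrFun hW' i) i
      rw [Matrix.mul_apply, Matrix.one_apply, if_pos rfl] at h3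
      rw [← h3]
      refine Finset.sum_congr rfl fun n _ => ?_
      rw [Matrix.transpose_apply, sq]
    rw [h2] at h1
    exact h1
  obtain ⟨q, hq⟩ : ∃ q : Fin N → ℝ, ∀ i, q i = -(v' i ⬝ᵥ (A *ᵥ v' i)) - lam * (v' i ⬝ᵥ v' i) :=
    ⟨_, fun _ => rfl⟩
  have hsum : -(∑ n, v n ⬝ᵥ (A *ᵥ v n)) - lam * ∑ n, v n ⬝ᵥ v n = ∑ i, q i := by
    have h1 := mix hW v A
    have h2 := mix hW v (1 : Matrix (Fin m) (Fin m) ℝ)
    simp only [Matrix.one_mulVec] at h2
    rw [← h1, ← h2, Finset.mul_sum, ← Finset.sum_neg_distrib, ← Finset.sum_sub_distrib]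
    refine Finset.sum_congr rfl fun i _ => ?_
    rw [hq, hv']
  have he0 : ∀ i, 0 < q i → 0 < e i := by
    intro i hi
    have h1 : v' i ≠ 0 := by
      intro h
      rw [hq, h] at hi
      simp at hi
    have h2 := hp _ h1
    rw [horth, if_pos rfl] at h2
    exact h2
  set T : Finset (Fin N) := Finset.univ.filter fun i => 0 < q i with hT
  have hTm : ∀ i ∈ T, 0 < q i := fun i hi => (Finset.mem_filter.1 hi).2
  have hle : ∑ i, q i ≤ ∑ i ∈ T, q i / e i := by
    have h1 : ∑ i, q i ≤ ∑ i ∈ T, q i := by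
      rw [hT, Finset.sum_filter]
      refine Finset.sum_le_sum fun i _ => ?_
      split_ifs with h
      · exact le_rfl
      · exact not_lt.1 h
    refine h1.trans (Finset.sum_le_sum fun i hi => ?_)
    have h2 := hTm i hi
    rw [le_div_iff₀ (he0 i h2)]
    exact mul_le_of_le_one_right h2.le (he1 i)
  -- the orthonormal family
  obtain ⟨u, hu⟩ : ∃ u : Fin N → Fin m → ℝ, ∀ i, u i = (√(e i))⁻¹ • v' i := ⟨_, fun _ => rfl⟩
  let eq := T.equivFin
  have hcomp : ∀ a : Fin T.card, 0 < e (eq.symm a).1 := fun a => he0 _ (hTm _ (eq.symm a).2)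
  have huo : ∀ a b : Fin T.card, u (eq.symm a).1 ⬝ᵥ (M *ᵥ u (eq.symm b).1) =
      if a = b then (1 : ℝ) else 0 := by
    intro a b
    rw [hu, hu, Matrix.mulVec_smul, smul_dotProduct, dotProduct_smul, horth, smul_eq_mul,
      smul_eq_mul]
    by_cases h : a = b
    · subst h
      rw [if_pos rfl, if_pos rfl]
      have h1 := hcomp a
      have h2 : √(e (eq.symm a).1) * √(e (eq.symm a).1) = e (eq.symm a).1 :=
        Real.mul_self_sqrt h1.le
      have h3 : √(e (eq.symm a).1) ≠ 0 := (Real.sqrt_pos.2 h1).ne'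
      field_simp
      rw [sq, h2]
    · rw [if_neg h, if_neg (fun h1 => h (eq.symm.injective (Subtype.ext h1)))]
      simp
  have huq : ∀ a : Fin T.card, -(u (eq.symm a).1 ⬝ᵥ (A *ᵥ u (eq.symm a).1)) -
      lam * (u (eq.symm a).1 ⬝ᵥ u (eq.symm a).1) = q (eq.symm a).1 / e (eq.symm a).1 := by
    intro a
    have h1 := hcomp a
    have h2 : √(e (eq.symm a).1) * √(e (eq.symm a).1) = e (eq.symm a).1 :=
      Real.mul_self_sqrt h1.le
    have h3 : (√(e (eq.symm a).1))⁻¹ * (√(e (eq.symm a).1))⁻¹ = (e (eq.symm a).1)⁻¹ := by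
      rw [← mul_inv, h2]
    rw [hu, Matrix.mulVec_smul, smul_dotProduct, dotProduct_smul, smul_dotProduct,
      dotProduct_smul, hq]
    simp only [smul_eq_mul]
    rw [div_eq_inv_mul, ← h3]
    ring
  have hmain := hINT m (mc A) (mc M) (by
      apply Matrix.IsHermitian.ext
      intro i j
      simp only [mc, Matrix.map_apply]
      rw [Complex.star_def, Complex.conj_ofReal, hA.apply]) (mc_posDef hM hp) T.card
    (fun a => vc (u (eq.symm a).1)) (fun a b => by
      rw [star_vc, mc_vc, vc_dot, huo]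
      split_ifs <;> simp) lam
  refine le_trans (ENNReal.ofReal_le_ofReal ?_) hmain
  rw [hsum]
  refine hle.trans (le_of_eq ?_)
  have h1 : ∑ i ∈ T, q i / e i = ∑ a : Fin T.card, q (eq.symm a).1 / e (eq.symm a).1 := by
    rw [← Finset.sum_coe_sort T (fun i => q i / e i)]
    exact (Equiv.sum_comp eq.symm (fun i : T => q i.1 / e i.1)).symm
  rw [h1]
  simp only [star_vc, mc_vc, vc_dot, Complex.ofReal_re]
  rw [Finset.mul_sum, ← Finset.sum_neg_distrib, ← Finset.sum_sub_distrib]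
  refine Finset.sum_congr rfl fun a _ => (huq a).symm

end Pool.Agent.L7h98.RA
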